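import Mathlib
import Pool.Agent.D0H91.MG.Eng2

/-! Uniform generic dilations: the deterministic part, for families of weights. -/

set_option autoImplicit false

namespace Pool.Agent.D0H76.UG

open Finset MeasureTheory Filter Topology
open Pool.Agent.D0H91.MG (ev_logge ev_logpow Ws FF)

/-- the deterministic lemma -/
theorem detF {ι : Type*} (R : ℕ → Finset ι) (hR : Monotone R) (F : ℕ → ι → ℂ) (κ : ℝ) (hκ : 1 ≤ κ) (K : ℕ)
    (hsum : Summable fun N : ℕ => ∑ i ∈ R N, Real.log N ^ (4 * K + 3) / (N : ℝ) ^ 3 * ‖F N i‖ ^ 2)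
    (h1 : ∀ᶠ N : ℕ in atTop, ∀ i ∈ R N, ∀ j : ℕ, j ≤ N →
      ‖F (N + j) i - F N i‖ ≤ (j : ℝ) * (κ * Real.log N)) :
    ∀ᶠ N : ℕ in atTop, ∀ i ∈ R N, ‖F N i‖ ≤ N / Real.log N ^ K := by
  set G : ℕ → ℝ := fun N => ∑ i ∈ R N, Real.log N ^ (4 * K + 3) / (N : ℝ) ^ 3 * ‖F N i‖ ^ 2 with hG
  have hG0 : ∀ N, 0 ≤ G N := by
    intro N
    have : 0 ≤ Real.log (N : ℝ) := Real.log_natCast_nonneg N
    simp only [hG]
    positivity
  have e1 : ∀ᶠ N : ℕ in atTop, ∑' M : ℕ, G (M + N) < 1 :=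
    (tendsto_sum_nat_add G).eventually_lt_const one_pos
  filter_upwards [e1, h1, ev_logge (256 * κ + 1), ev_logpow (4 * κ) (K + 1), eventually_ge_atTop 1] with
    N h1 h2 h3 h4 h5 i hi
  by_contra hcon
  push Not at hcon
  obtain ⟨L, hL⟩ : ∃ L, L = Real.log (N : ℝ) := ⟨_, rfl⟩
  simp only [← hL] at h2 h3 h4 hcon
  have hκ0 : 0 < κ := by linarith
  have hN1 : (1 : ℝ) ≤ N := by exact_mod_cast h5
  have hN0 : (0 : ℝ) < N := by linarith
  have hL1 : 1 ≤ L := by nlinarith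
  have hL0 : 0 < L := by linarith
  set A : ℝ := 4 * κ * L ^ (K + 1) with hA
  have hA0 : 0 < A := by positivity
  have hA1 : 1 ≤ A := by
    have : 1 ≤ L ^ (K + 1) := one_le_pow₀ hL1
    nlinarith
  obtain ⟨H, hH⟩ : ∃ H : ℕ, H = ⌊(N : ℝ) / A⌋₊ := ⟨_, rfl⟩
  have hNA : 1 ≤ (N : ℝ) / A := by
    rw [le_div_iff₀ hA0, one_mul]
    exact h4
  have hH1 : (H : ℝ) ≤ N / A := by
    rw [hH]
    exact Nat.floor_le (by positivity)
  have hH2 : (N : ℝ) / (2 * A) ≤ H := by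
    have a1 : (N : ℝ) / A < H + 1 := by
      rw [hH]
      exact Nat.lt_floor_add_one _
    have a2 : (1 : ℝ) ≤ H := by
      have : 1 ≤ H := by
        rw [hH]
        exact Nat.le_floor (by simpa using hNA)
      exact_mod_cast this
    have a3 : (N : ℝ) / (2 * A) = (N / A) / 2 := by
      field_simp
    rw [a3]
    linarith
  have hHN : H ≤ N := by
    have : (H : ℝ) ≤ N := hH1.trans (div_le_self hN0.le hA1)
    exact_mod_cast this
  have hbig : ∀ j : ℕ, j < H → N / (2 * L ^ K) ≤ ‖F (N + j) i‖ := by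
    intro j hj
    have a1 := h2 i hi j (by omega)
    have hjr : (j : ℝ) ≤ N / A := le_trans (by exact_mod_cast hj.le) hH1
    have a2 : (j : ℝ) * (κ * L) ≤ N / (2 * L ^ K) := by
      calc (j : ℝ) * (κ * L) ≤ (N / A) * (κ * L) := by gcongr
        _ = (1 / 4) * (N / L ^ K) := by
            rw [hA, pow_succ]
            field_simp
        _ ≤ N / (2 * L ^ K) := by
            have : 0 ≤ N / L ^ K := by positivity
            have e : N / (2 * L ^ K) = (1 / 2) * (N / L ^ K) := by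
              field_simp
            rw [e]
            linarith
    have a3 : ‖F N i‖ ≤ ‖F (N + j) i‖ + ‖F (N + j) i - F N i‖ := by
      have := norm_sub_le (F (N + j) i) (F (N + j) i - F N i)
      rwa [sub_sub_cancel] at this
    have a4 : (N : ℝ) / L ^ K = N / (2 * L ^ K) + N / (2 * L ^ K) := by
      field_simp
      norm_num
    linarith
  have hterm : ∀ j ∈ Finset.range H, L ^ (4 * K + 3) / (8 * (N : ℝ) ^ 3) * (N / (2 * L ^ K)) ^ 2 ≤ G (j + N) := by
    intro j hj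
    rw [Finset.mem_range] at hj
    simp only [hG]
    have hlog0 : 0 ≤ Real.log ((j + N : ℕ) : ℝ) := Real.log_natCast_nonneg _
    refine le_trans ?_ (Finset.single_le_sum (f := fun i => Real.log ((j + N : ℕ) : ℝ) ^ (4 * K + 3) /
      ((j + N : ℕ) : ℝ) ^ 3 * ‖F (j + N) i‖ ^ 2) (fun _ _ => by positivity)
      (hR (show N ≤ j + N by omega) hi))
    have b1 := hbig j hj
    rw [add_comm N j] at b1
    have b2 : L ≤ Real.log ((j + N : ℕ) : ℝ) := by
      rw [hL]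
      refine Real.log_le_log hN0 ?_
      push_cast
      have : (0 : ℝ) ≤ j := Nat.cast_nonneg j
      linarith
    have b3 : ((j + N : ℕ) : ℝ) ≤ 2 * N := by
      have : ((j + N : ℕ) : ℝ) ≤ ((2 * N : ℕ) : ℝ) := by exact_mod_cast (by omega : j + N ≤ 2 * N)
      push_cast at this ⊢
      linarith
    have b5 : (0 : ℝ) < ((j + N : ℕ) : ℝ) := by exact_mod_cast (by omega : 0 < j + N)
    refine mul_le_mul ?_ (pow_le_pow_left₀ (by positivity) b1 2) (by positivity) (by positivity)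
    refine div_le_div₀ (by positivity) (pow_le_pow_left₀ hL0.le b2 _) (by positivity) ?_
    calc ((j + N : ℕ) : ℝ) ^ 3 ≤ (2 * (N : ℝ)) ^ 3 := by
          gcongr
      _ = 8 * (N : ℝ) ^ 3 := by ring
  have h5' : ∑ j ∈ Finset.range H, (L ^ (4 * K + 3) / (8 * (N : ℝ) ^ 3) * (N / (2 * L ^ K)) ^ 2) ≤
      ∑' M : ℕ, G (M + N) := by
    refine (Finset.sum_le_sum hterm).trans ?_
    exact ((summable_nat_add_iff N).2 hsum).sum_le_tsum (Finset.range H) (fun M _ => hG0 _)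
  rw [Finset.sum_const, Finset.card_range, nsmul_eq_mul] at h5'
  have h6 : 1 < (H : ℝ) * (L ^ (4 * K + 3) / (8 * (N : ℝ) ^ 3) * (N / (2 * L ^ K)) ^ 2) := by
    have hLK : 1 ≤ L ^ (K + 1) := one_le_pow₀ hL1
    calc (1 : ℝ) < L / (256 * κ) := by
          rw [lt_div_iff₀ (by positivity)]
          linarith
      _ ≤ L / (256 * κ) * L ^ (K + 1) := le_mul_of_one_le_right (by positivity) hLK
      _ = (N / (2 * A)) * (L ^ (4 * K + 3) / (8 * (N : ℝ) ^ 3) * (N / (2 * L ^ K)) ^ 2) := by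
            have e1 : L ^ (4 * K + 3) = L * (L ^ (K + 1)) ^ 2 * (L ^ K) ^ 2 := by
              rw [← pow_mul, ← pow_mul, ← pow_succ', ← pow_add]
              congr 1
              ring
            rw [hA, e1]
            field_simp
            norm_num
      _ ≤ _ := by
          gcongr
  linarith

/-! ### the sums -/

theorem Ws01 (b : ℕ → ℂ) (x : ℝ) : Ws b 0 1 x = b (⌊x⌋₊ + 1) := by
  unfold Ws
  rw [sub_zero]
  have h3 : Ioc ⌊x⌋₊ (⌊x⌋₊ + 1) = {⌊x⌋₊ + 1} := by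
    ext m
    rw [Finset.mem_Ioc, Finset.mem_singleton]
    omega
  rw [h3, Finset.sum_singleton]

/-- the weighted sum over `n ≤ N` of `b` at `⌊α n⌋ + 1` -/
noncomputable def SS (b c : ℕ → ℂ) (N : ℕ) (α : ℝ) : ℂ :=
  ∑ n ∈ Icc 1 N, c n * b (⌊α * (n : ℝ)⌋₊ + 1)

theorem FF_SS (b c : ℕ → ℂ) (N : ℕ) (w : ℝ) : FF b c 1 0 N 1 w = SS b c N (Real.exp w) := by
  unfold FF SS
  refine Finset.sum_congr rfl fun n _ => ?_
  rw [Ws01, one_mul, Real.rpow_one]

theorem SS_lip (b : ℕ → ℂ) (hb : ∀ m : ℕ, ‖b m‖ ≤ Real.log (m + 3)) (w0 : ℝ) :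
    ∀ᶠ N : ℕ in atTop, ∀ w ∈ Set.Icc w0 (w0 + 1), ∀ c : ℕ → ℂ, (∀ n, ‖c n‖ ≤ 1) → ∀ j : ℕ, j ≤ N →
      ‖SS b c (N + j) (Real.exp w) - SS b c N (Real.exp w)‖ ≤ (j : ℝ) * (2 * Real.log N) := by
  filter_upwards [eventually_ge_atTop (⌈Real.exp (w0 + 1) * 2 + 4⌉₊)] with N hN w hw c hc j hj
  set M : ℝ := Real.exp (w0 + 1) * 2 + 4 with hM
  have hM4 : 4 ≤ M := by
    have : 0 ≤ Real.exp (w0 + 1) * 2 := by positivity
    linarith
  have hNM : M ≤ N := by
    have h1 := Nat.le_ceil M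
    have h2 : ((⌈M⌉₊ : ℕ) : ℝ) ≤ N := by exact_mod_cast hN
    linarith
  have hN0 : (0 : ℝ) < N := by linarith
  have hN1 : (1 : ℝ) ≤ N := by linarith
  have hterm : ∀ n : ℕ, n ≤ 2 * N → ‖b (⌊Real.exp w * (n : ℝ)⌋₊ + 1)‖ ≤ 2 * Real.log N := by
    intro n hn
    have a1 : Real.exp w ≤ Real.exp (w0 + 1) := Real.exp_le_exp.2 hw.2
    have a2 : (n : ℝ) ≤ 2 * N := by exact_mod_cast hn
    have a3 : Real.exp w * (n : ℝ) ≤ Real.exp (w0 + 1) * (2 * N) :=
      mul_le_mul a1 a2 (Nat.cast_nonneg _) (Real.exp_pos _).le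
    have a4 : ((⌊Real.exp w * (n : ℝ)⌋₊ : ℕ) : ℝ) ≤ Real.exp w * (n : ℝ) := Nat.floor_le (by positivity)
    refine (hb _).trans ?_
    have a5 : (((⌊Real.exp w * (n : ℝ)⌋₊ + 1 : ℕ) : ℝ) + 3) ≤ (N : ℝ) * N := by
      push_cast
      have a6 : M * N ≤ N * N := mul_le_mul_of_nonneg_right hNM hN0.le
      have a7 : M * N = Real.exp (w0 + 1) * (2 * N) + 4 * N := by
        rw [hM]
        ring
      linarith
    have a8 := Real.log_le_log (by positivity) a5
    rw [Real.log_mul hN0.ne' hN0.ne'] at a8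
    linarith
  induction j with
  | zero => simp
  | succ j ih =>
    have h1 := ih (by omega)
    have e1 : SS b c (N + (j + 1)) (Real.exp w) - SS b c N (Real.exp w) =
        (SS b c (N + j) (Real.exp w) - SS b c N (Real.exp w)) +
        c (N + j + 1) * b (⌊Real.exp w * ((N + j + 1 : ℕ) : ℝ)⌋₊ + 1) := by
      unfold SS
      rw [← add_assoc, Finset.sum_Icc_succ_top (by omega)]
      ring
    rw [e1]
    refine (norm_add_le _ _).trans ?_
    have h2 : ‖c (N + j + 1) * b (⌊Real.exp w * ((N + j + 1 : ℕ) : ℝ)⌋₊ + 1)‖ ≤ 2 * Real.log N := by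
      rw [norm_mul]
      calc ‖c (N + j + 1)‖ * ‖b (⌊Real.exp w * ((N + j + 1 : ℕ) : ℝ)⌋₊ + 1)‖ ≤ 1 * (2 * Real.log N) :=
            mul_le_mul (hc _) (hterm _ (by omega)) (norm_nonneg _) zero_le_one
        _ = _ := one_mul _
    refine (add_le_add h1 h2).trans (le_of_eq ?_)
    push_cast
    ring

theorem SS_meas (b c : ℕ → ℂ) (N : ℕ) : Measurable (SS b c N) := by
  unfold SS
  refine Finset.measurable_fun_sum _ fun n _ => ?_
  refine Measurable.const_mul ?_ _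
  have h1 : Measurable (fun α : ℝ => ⌊α * (n : ℝ)⌋₊) :=
    Nat.measurable_floor.comp (measurable_id.mul measurable_const)
  exact (measurable_from_top (f := fun m : ℕ => b (m + 1))).comp h1

theorem sum_dil (ρ N : ℕ) (hρ : 1 ≤ ρ) (f : ℕ → ℂ) :
    ∑ m ∈ Icc 1 (ρ * N), (if ρ ∣ m then f m else 0) = ∑ n ∈ Icc 1 N, f (ρ * n) := by
  rw [← Finset.sum_filter]
  symm
  refine Finset.sum_nbij' (fun n => ρ * n) (fun m => m / ρ) ?_ ?_ ?_ ?_ ?_
  · intro n hn
    rw [Finset.mem_Icc] at hn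
    rw [Finset.mem_filter, Finset.mem_Icc]
    exact ⟨⟨Nat.one_le_iff_ne_zero.2 (Nat.mul_ne_zero (by omega) (by omega)), Nat.mul_le_mul_left _ hn.2⟩,
      dvd_mul_right _ _⟩
  · intro m hm
    rw [Finset.mem_filter, Finset.mem_Icc] at hm
    rw [Finset.mem_Icc]
    obtain ⟨⟨h1, h2⟩, n, rfl⟩ := hm
    rw [Nat.mul_div_cancel_left _ (by omega)]
    constructor
    · rcases Nat.eq_zero_or_pos n with h | h
      · subst h
        simp at h1
      · exact h
    · exact Nat.le_of_mul_le_mul_left h2 (by omega)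
  · intro n _
    exact Nat.mul_div_cancel_left _ (by omega)
  · intro m hm
    rw [Finset.mem_filter] at hm
    exact Nat.mul_div_cancel' hm.2
  · intro n _
    rfl

end Pool.Agent.D0H76.UG
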