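import Mathlib
import Pool.Agent.D0H76.UG.Det
import Pool.Agent.D0H91.MG.Base

/-! Uniform generic dilations: the engine for families of weights. -/

set_option autoImplicit false

namespace Pool.Agent.D0H76.UG

open Finset MeasureTheory Filter Topology
open scoped ENNReal
open Pool.Agent.D0H91.MG (ev_logge ev_logpow Ws FF eng2 ae_of_exp)
open Pool.Agent.Y957.VK (Neg)

theorem fam_loc {ι : Type*} (b : ℕ → ℂ) (hb : ∀ m : ℕ, ‖b m‖ ≤ Real.log (m + 3)) (hneg : Neg b)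
    (R : ℕ → Finset ι) (hR : Monotone R) (D : ℕ)
    (hD : ∀ᶠ N : ℕ in atTop, ((R N).card : ℝ) ≤ Real.log N ^ D) (c : ι → ℕ → ℂ) (hc : ∀ i n, ‖c i n‖ ≤ 1)
    (w0 : ℝ) (K : ℕ) :
    ∀ᵐ w ∂(volume.restrict (Set.Icc w0 (w0 + 1))), ∀ᶠ N : ℕ in atTop, ∀ i ∈ R N,
      ‖SS b (c i) N (Real.exp w)‖ ≤ N / Real.log N ^ K := by
  set Ω : Set ℝ := Set.Icc w0 (w0 + 1) with hΩ
  obtain ⟨N1, hN1⟩ := ((eng2 b hb hneg 1 one_pos 0 le_rfl zero_le_one w0 1 one_pos (4 * K + 3 + (D + 2))).and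
    (hD.and ((ev_logge 1).and (eventually_ge_atTop 2)))).exists_forall_of_atTop
  have hms : ∀ (i : ι) (N : ℕ), Measurable (fun w : ℝ => SS b (c i) N (Real.exp w)) := fun i N =>
    (SS_meas b (c i) N).comp Real.measurable_exp
  -- the sums in `ℝ≥0∞`
  obtain ⟨G, hG⟩ : ∃ G : ℕ → ℝ → ℝ≥0∞, G = fun N w => ∑ i ∈ R (N + N1),
    ENNReal.ofReal (Real.log ((N + N1 : ℕ) : ℝ) ^ (4 * K + 3) / ((N + N1 : ℕ) : ℝ) ^ 3) *
      ‖SS b (c i) (N + N1) (Real.exp w)‖ₑ ^ 2 := ⟨_, rfl⟩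
  have hGm : ∀ N, Measurable (G N) := by
    intro N
    rw [hG]
    refine Finset.measurable_fun_sum _ fun i _ => ?_
    exact Measurable.const_mul ((hms i (N + N1)).enorm.pow_const 2) _
  have hGi : ∀ N, ∫⁻ w in Ω, G N w ≤
      ENNReal.ofReal (1 / (((N + N1 : ℕ) : ℝ) * Real.log ((N + N1 : ℕ) : ℝ) ^ 2)) := by
    intro N
    obtain ⟨a1, a2, a3, a4⟩ := hN1 (N + N1) (by omega)
    obtain ⟨M, hM⟩ : ∃ M, M = N + N1 := ⟨_, rfl⟩
    rw [hG]
    simp only [← hM] at a1 a2 a3 a4 ⊢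
    have hM2 : (2 : ℝ) ≤ M := by exact_mod_cast a4
    have hM0 : (0 : ℝ) < M := by linarith
    set L := Real.log (M : ℝ) with hL
    have hL0 : 0 < L := by linarith
    rw [lintegral_finsetSum _ fun i _ => Measurable.const_mul ((hms i M).enorm.pow_const 2) _]
    have e1 : ∀ i ∈ R M, ∫⁻ w in Ω, ENNReal.ofReal (L ^ (4 * K + 3) / (M : ℝ) ^ 3) *
        ‖SS b (c i) M (Real.exp w)‖ₑ ^ 2 ≤ ENNReal.ofReal (1 / (M * L ^ (D + 2))) := by
      intro i _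
      rw [lintegral_const_mul _ ((hms i M).enorm.pow_const 2)]
      have a5 := a1 1 le_rfl (by simp) (c i) (hc i)
      simp only [FF_SS] at a5
      refine (mul_le_mul_right a5 _).trans ?_
      rw [← ENNReal.ofReal_mul (by positivity)]
      refine ENNReal.ofReal_le_ofReal (le_of_eq ?_)
      have e : L ^ (4 * K + 3 + (D + 2)) = L ^ (4 * K + 3) * L ^ (D + 2) := pow_add _ _ _
      rw [e]
      push_cast
      field_simp
    refine (Finset.sum_le_card_nsmul _ _ _ e1).trans ?_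
    rw [nsmul_eq_mul, ← ENNReal.ofReal_natCast, ← ENNReal.ofReal_mul (Nat.cast_nonneg _)]
    apply ENNReal.ofReal_le_ofReal
    calc ((R M).card : ℝ) * (1 / (M * L ^ (D + 2))) ≤ L ^ D * (1 / (M * L ^ (D + 2))) :=
          mul_le_mul_of_nonneg_right a2 (by positivity)
      _ = 1 / (M * L ^ 2) := by
          rw [pow_add]
          field_simp
  have hsum0 : Summable (fun N : ℕ => 1 / (((N + N1 : ℕ) : ℝ) * Real.log ((N + N1 : ℕ) : ℝ) ^ 2)) := by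
    have h1 := Pool.Agent.Y901.VK.bc_summable 1
    have h2 : Summable (fun N : ℕ => 1 / ((N : ℝ) * Real.log (N : ℝ) ^ 2)) :=
      (summable_nat_add_iff (f := fun N : ℕ => 1 / ((N : ℝ) * Real.log (N : ℝ) ^ 2)) 2).1 h1
    exact (summable_nat_add_iff (f := fun N : ℕ => 1 / ((N : ℝ) * Real.log (N : ℝ) ^ 2)) N1).2 h2
  have hfin : ∫⁻ w in Ω, ∑' N, G N w ≠ ⊤ := by
    rw [lintegral_tsum fun N => (hGm N).aemeasurable]
    refine ne_of_lt (lt_of_le_of_lt (ENNReal.tsum_le_tsum hGi) ?_)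
    exact hsum0.tsum_ofReal_lt_top
  have hae := ae_lt_top (Measurable.tsum hGm) hfin
  filter_upwards [hae, ae_restrict_mem measurableSet_Icc] with w hw hwΩ
  have hS : Summable fun N : ℕ => ∑ i ∈ R N,
      Real.log N ^ (4 * K + 3) / (N : ℝ) ^ 3 * ‖SS b (c i) N (Real.exp w)‖ ^ 2 := by
    rw [← summable_nat_add_iff N1]
    refine (ENNReal.summable_toReal hw.ne).congr fun N => ?_
    have hl0 : 0 ≤ Real.log ((N + N1 : ℕ) : ℝ) := Real.log_natCast_nonneg _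
    rw [hG]
    simp only
    rw [ENNReal.toReal_sum fun i _ => by finiteness]
    refine Finset.sum_congr rfl fun i _ => ?_
    rw [ENNReal.toReal_mul, ENNReal.toReal_pow, toReal_enorm, ENNReal.toReal_ofReal (by positivity)]
  refine detF R hR (fun N i => SS b (c i) N (Real.exp w)) 2 (by norm_num) K hS ?_
  filter_upwards [SS_lip b hb w0] with N hN i _ j hj
  exact hN w hwΩ (c i) (hc i) j hj

/-- **The engine for families of weights.** -/
theorem fam_ae {ι : Type*} (b : ℕ → ℂ) (hb : ∀ m : ℕ, ‖b m‖ ≤ Real.log (m + 3)) (hneg : Neg b)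
    (R : ℕ → Finset ι) (hR : Monotone R) (D : ℕ)
    (hD : ∀ᶠ N : ℕ in atTop, ((R N).card : ℝ) ≤ Real.log N ^ D) (c : ι → ℕ → ℂ) (hc : ∀ i n, ‖c i n‖ ≤ 1) :
    ∀ᵐ α : ℝ, 0 < α → ∀ K : ℕ, ∀ᶠ N : ℕ in atTop, ∀ i ∈ R N, ‖SS b (c i) N α‖ ≤ N / Real.log N ^ K := by
  have h2 : ∀ (K : ℕ) (z : ℤ), ∀ᵐ w : ℝ, w ∈ Set.Icc (z : ℝ) (z + 1) → ∀ᶠ N : ℕ in atTop, ∀ i ∈ R N,
      ‖SS b (c i) N (Real.exp w)‖ ≤ N / Real.log N ^ K := fun K z =>
    (ae_restrict_iff' measurableSet_Icc).1 (fam_loc b hb hneg R hR D hD c hc z K)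
  have h3 : ∀ᵐ w : ℝ, ∀ (K : ℕ) (z : ℤ), w ∈ Set.Icc (z : ℝ) (z + 1) → ∀ᶠ N : ℕ in atTop, ∀ i ∈ R N,
      ‖SS b (c i) N (Real.exp w)‖ ≤ N / Real.log N ^ K := by
    rw [ae_all_iff]
    intro K
    rw [ae_all_iff]
    intro z
    exact h2 K z
  refine ae_of_exp (P := fun α => ∀ K : ℕ, ∀ᶠ N : ℕ in atTop, ∀ i ∈ R N, ‖SS b (c i) N α‖ ≤ N / Real.log N ^ K)
    one_pos ?_
  filter_upwards [h3] with w hw K
  rw [one_mul]
  exact hw K ⌊w⌋ ⟨Int.floor_le w, (Int.lt_floor_add_one w).le⟩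

/-- families of weights and of integral dilations -/
theorem fam_dil {ι : Type*} (b : ℕ → ℂ) (hb : ∀ m : ℕ, ‖b m‖ ≤ Real.log (m + 3)) (hneg : Neg b)
    (R : ℕ → Finset ι) (hR : Monotone R) (D B : ℕ)
    (hD : ∀ᶠ N : ℕ in atTop, ((R N).card : ℝ) ≤ Real.log N ^ D) (ρ : ι → ℕ) (hρ1 : ∀ i, 1 ≤ ρ i)
    (hρ : ∀ᶠ N : ℕ in atTop, ∀ i ∈ R N, (ρ i : ℝ) ≤ Real.log N ^ B) (a : ι → ℕ → ℂ) (M : ℝ)
    (ha : ∀ i n, ‖a i n‖ ≤ M) :
    ∀ᵐ α : ℝ, 0 < α → ∀ K : ℕ, ∀ᶠ N : ℕ in atTop, ∀ i ∈ R N,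
      ‖∑ n ∈ Icc 1 N, a i n * b (⌊α * (ρ i : ℝ) * (n : ℝ)⌋₊ + 1)‖ ≤ N / Real.log N ^ K := by
  classical
  -- we may assume `0 ≤ M`
  obtain ⟨M', hM', hM1⟩ : ∃ M' : ℝ, 1 ≤ M' ∧ M ≤ M' := ⟨max 1 M, le_max_left _ _, le_max_right _ _⟩
  have hM0 : 0 < M' := by linarith
  set c : ι → ℕ → ℂ := fun i m => if ρ i ∣ m then a i (m / ρ i) / (M' : ℂ) else 0 with hc
  have hc1 : ∀ i n, ‖c i n‖ ≤ 1 := by
    intro i n
    simp only [hc]
    split_ifs
    · rw [norm_div, Complex.norm_real, Real.norm_eq_abs, abs_of_pos hM0, div_le_one hM0]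
      exact (ha i _).trans hM1
    · simp
  filter_upwards [fam_ae b hb hneg R hR D hD c hc1] with α hα hα0 K
  obtain ⟨N0, h0⟩ := (hα hα0 (K + B + 1)).exists_forall_of_atTop
  filter_upwards [hρ, ev_logge M', eventually_ge_atTop N0, eventually_ge_atTop 1] with N h1 h2 h3 h4 i hi
  have hN0 : (0 : ℝ) < N := by exact_mod_cast h4
  have hρi := hρ1 i
  have hρr : (1 : ℝ) ≤ ρ i := by exact_mod_cast hρi
  have hle : N ≤ ρ i * N := Nat.le_mul_of_pos_left N (by omega)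
  have h5 := h0 (ρ i * N) (h3.trans hle) i (hR hle hi)
  have e1 : SS b (c i) (ρ i * N) α =
      (1 / (M' : ℂ)) * ∑ n ∈ Icc 1 N, a i n * b (⌊α * (ρ i : ℝ) * (n : ℝ)⌋₊ + 1) := by
    unfold SS
    have e2 : ∀ m ∈ Icc 1 (ρ i * N), c i m * b (⌊α * (m : ℝ)⌋₊ + 1) =
        if ρ i ∣ m then a i (m / ρ i) / (M' : ℂ) * b (⌊α * (m : ℝ)⌋₊ + 1) else 0 := by
      intro m _
      simp only [hc]
      split_ifs
      · rfl
      · rw [zero_mul]
    rw [Finset.sum_congr rfl e2, sum_dil (ρ i) N hρi, Finset.mul_sum]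
    refine Finset.sum_congr rfl fun n _ => ?_
    rw [Nat.mul_div_cancel_left _ (by omega)]
    have e3 : α * ((ρ i * n : ℕ) : ℝ) = α * (ρ i : ℝ) * (n : ℝ) := by
      push_cast
      ring
    rw [e3]
    ring
  rw [e1, norm_mul, norm_div, norm_one, Complex.norm_real, Real.norm_eq_abs, abs_of_pos hM0] at h5
  have hL0 : 0 < Real.log (N : ℝ) := by linarith
  have h6 : Real.log N ≤ Real.log ((ρ i * N : ℕ) : ℝ) := Real.log_le_log hN0 (by exact_mod_cast hle)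
  have h7 : ((ρ i * N : ℕ) : ℝ) / Real.log ((ρ i * N : ℕ) : ℝ) ^ (K + B + 1) ≤ N / Real.log N ^ (K + 1) := by
    calc ((ρ i * N : ℕ) : ℝ) / Real.log ((ρ i * N : ℕ) : ℝ) ^ (K + B + 1) ≤
          (Real.log N ^ B * N) / Real.log N ^ (K + B + 1) := by
          apply div_le_div₀ (by positivity) _ (by positivity) (pow_le_pow_left₀ hL0.le h6 _)
          push_cast
          exact mul_le_mul_of_nonneg_right (h1 i hi) hN0.le
      _ = N / Real.log N ^ (K + 1) := by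
          have e : Real.log (N : ℝ) ^ (K + B + 1) = Real.log N ^ B * Real.log N ^ (K + 1) := by
            rw [← pow_add]
            congr 1
            ring
          rw [e]
          field_simp
  have h8 := h5.trans h7
  rw [one_div, inv_mul_le_iff₀ hM0] at h8
  refine h8.trans ?_
  rw [pow_succ]
  calc M' * (N / (Real.log N ^ K * Real.log N)) ≤ Real.log N * (N / (Real.log N ^ K * Real.log N)) :=
        mul_le_mul_of_nonneg_right h2 (by positivity)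
    _ = N / Real.log N ^ K := by
        field_simp

end Pool.Agent.D0H76.UG
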