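import Mathlib
import Pool.Agent.D0H76.UG.Fam
import Pool.Agent.D0H91.MG.Tup

/-! Uniform generic dilations: prime values of `⌊α ρ n⌋ + 1` for families of weights and of integers `ρ`. -/

set_option autoImplicit false

namespace Pool.Agent.D0H76.UG

open Finset MeasureTheory Filter Topology
open Pool.Agent.D0H91.MG (ev_logge ev_logpow tb tb_le tb_neg ip gd gd_nonneg gd_le gd_anti ip_le anti_sum abel_le log2_pos)
open Pool.Agent.W301.SS (om om_nonneg)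

/-- the indicator against the logarithmic weight -/
theorem ip_om1 {x : ℝ} (hx : 2 ≤ x) : ‖ip (⌊x⌋₊ + 1) - (gd x : ℂ) * (om (⌊x⌋₊ + 1) : ℂ)‖ ≤ 4 / x := by
  have h2 := log2_pos
  have hlx : Real.log 2 ≤ Real.log x := Real.log_le_log (by norm_num) hx
  have hl0 : 0 < Real.log x := by linarith
  unfold ip om
  by_cases hp : (⌊x⌋₊ + 1).Prime
  · rw [if_pos hp, if_pos hp]
    unfold gd
    rw [if_pos hx]
    have h4 : (⌊x⌋₊ : ℝ) ≤ x := Nat.floor_le (by linarith)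
    have h5 : x < (⌊x⌋₊ : ℝ) + 1 := Nat.lt_floor_add_one x
    obtain ⟨y, hy⟩ : ∃ y : ℝ, y = ((⌊x⌋₊ + 1 : ℕ) : ℝ) := ⟨_, rfl⟩
    have hy1 : x < y := by
      rw [hy]
      push_cast
      exact h5
    have hy2 : y ≤ x + 1 := by
      rw [hy]
      push_cast
      linarith
    rw [← hy]
    have e : (1 : ℂ) - ((1 / Real.log x : ℝ) : ℂ) * ((Real.log y : ℝ) : ℂ) =
        ((1 - 1 / Real.log x * Real.log y : ℝ) : ℂ) := by
      push_cast
      ring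
    rw [e, Complex.norm_real, Real.norm_eq_abs]
    have h6 : Real.log x ≤ Real.log y := Real.log_le_log (by linarith) hy1.le
    have h7 : Real.log y - Real.log x ≤ 1 / x := by
      rw [← Real.log_div (by linarith) (by linarith)]
      have h8 := Real.log_le_sub_one_of_pos (show 0 < y / x by
        apply div_pos <;> linarith)
      refine h8.trans ?_
      have hx0 : 0 < x := by linarith
      have e2 : y / x - 1 = (y - x) / x := by field_simp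
      rw [e2]
      apply div_le_div_of_nonneg_right _ hx0.le
      linarith
    have e3 : 1 - 1 / Real.log x * Real.log y = -((Real.log y - Real.log x) / Real.log x) := by
      field_simp
      ring
    rw [e3, abs_neg, abs_of_nonneg (div_nonneg (by linarith) hl0.le), div_le_iff₀ hl0]
    have h9 : (1 : ℝ) / x ≤ 4 / x * Real.log x := by
      rw [div_mul_eq_mul_div]
      apply div_le_div_of_nonneg_right _ (by linarith)
      linarith
    linarith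
  · rw [if_neg hp, if_neg hp]
    simp only [Complex.ofReal_zero, mul_zero, sub_zero, norm_zero]
    positivity

/-- from the weights `log p` to the indicator of the primes, for families -/
theorem prime_core_fam {ι : Type*} (α : ℝ) (hα0 : 0 < α) (R : ℕ → Finset ι) (hR : Monotone R) (ρ : ι → ℕ)
    (hρ1 : ∀ i, 1 ≤ ρ i) (a : ι → ℕ → ℂ) (M : ℝ) (hM0 : 0 ≤ M) (ha : ∀ i n, ‖a i n‖ ≤ M)
    (h : ∀ K : ℕ, ∀ᶠ X : ℕ in atTop, ∀ i ∈ R (X ^ 2),
      ‖∑ n ∈ Icc 1 X, a i n * tb (⌊α * (ρ i : ℝ) * (n : ℝ)⌋₊ + 1)‖ ≤ X / Real.log X ^ K) (K : ℕ) :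
    ∀ᶠ N : ℕ in atTop, ∀ i ∈ R N,
      ‖∑ n ∈ Icc 1 N, a i n * (ip (⌊α * (ρ i : ℝ) * (n : ℝ)⌋₊ + 1) - (gd (α * (ρ i : ℝ) * (n : ℝ)) : ℂ))‖ ≤
        N / Real.log N ^ K := by
  -- the points
  obtain ⟨n0, hn0'⟩ : ∃ n0 : ℕ, ∀ n : ℕ, n0 ≤ n → 2 ≤ α * (n : ℝ) :=
    ((tendsto_natCast_atTop_atTop.const_mul_atTop hα0).eventually_ge_atTop 2).exists_forall_of_atTop
  have hcomp : ∀ (i : ι) (n : ℕ), α * (n : ℝ) ≤ α * (ρ i : ℝ) * (n : ℝ) := by
    intro i n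
    have h1 : (1 : ℝ) ≤ ρ i := by exact_mod_cast hρ1 i
    have h2 : 0 ≤ α * (n : ℝ) := by positivity
    calc α * (n : ℝ) = 1 * (α * n) := (one_mul _).symm
      _ ≤ ρ i * (α * n) := mul_le_mul_of_nonneg_right h1 h2
      _ = _ := by ring
  have hn0 : ∀ (i : ι) (n : ℕ), n0 ≤ n → 2 ≤ α * (ρ i : ℝ) * (n : ℝ) := fun i n hn =>
    (hn0' n hn).trans (hcomp i n)
  have hmono : ∀ (i : ι) (n : ℕ), α * (ρ i : ℝ) * (n : ℝ) ≤ α * (ρ i : ℝ) * ((n + 1 : ℕ) : ℝ) := by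
    intro i n
    apply mul_le_mul_of_nonneg_left _ (by positivity)
    push_cast
    linarith
  -- partial sums
  obtain ⟨n1, hn1⟩ := (h (K + 1)).exists_forall_of_atTop
  have hsq : Tendsto (fun N : ℕ => (N : ℝ) ^ ((1 : ℝ) / 2)) atTop atTop :=
    (tendsto_rpow_atTop (by norm_num)).comp tendsto_natCast_atTop_atTop
  filter_upwards [ev_logge (3 * M + 6 * 2 ^ (K + 1) + M), ev_logge 1,
    hsq.eventually_ge_atTop (max (n0 : ℝ) (n1 + 2) + 1),
    Pool.Agent.W301.SS.ev_log (K + 1) 2 (1 / 2) (by norm_num),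
    Pool.Agent.W301.SS.ev_log (K + 1) (4 / α) (1 / 2) (by positivity), eventually_ge_atTop 1] with
    N g1 g2 g3 g4 g5 g6 i hi
  have hN1 : (1 : ℝ) ≤ N := by exact_mod_cast g6
  have hN0 : (0 : ℝ) < N := by linarith
  obtain ⟨L, hL⟩ : ∃ L, L = Real.log (N : ℝ) := ⟨_, rfl⟩
  simp only [← hL] at g1 g2 g4 g5 ⊢
  have hL0 : 0 < L := by linarith
  have hLp : 0 < L ^ (K + 1) := by positivity
  have hLp1 : 1 ≤ L ^ (K + 1) := one_le_pow₀ g2
  -- the cut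
  obtain ⟨X1, hX1⟩ : ∃ X1 : ℕ, X1 = ⌊(N : ℝ) / L ^ (K + 1)⌋₊ := ⟨_, rfl⟩
  have hs2 : (N : ℝ) ^ ((1 : ℝ) / 2) * (N : ℝ) ^ ((1 : ℝ) / 2) = N := by
    rw [← Real.rpow_add hN0]
    norm_num
  obtain ⟨s, hs⟩ : ∃ s, s = (N : ℝ) ^ ((1 : ℝ) / 2) := ⟨_, rfl⟩
  rw [← hs] at hs2 g3 g4 g5
  have hs1 : 1 ≤ s := by
    rw [hs]
    exact Real.one_le_rpow hN1 (by norm_num)
  have hXle : (X1 : ℝ) ≤ N / L ^ (K + 1) := by
    rw [hX1]
    exact Nat.floor_le (by positivity)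
  have hXge : s ≤ X1 := by
    have a1 : 2 * s ≤ N / L ^ (K + 1) := by
      rw [le_div_iff₀ hLp]
      nlinarith
    have a2 : (N : ℝ) / L ^ (K + 1) < X1 + 1 := by
      rw [hX1]
      exact Nat.lt_floor_add_one _
    linarith
  have hXN : X1 ≤ N := by
    have a1 : (X1 : ℝ) ≤ N := hXle.trans (div_le_self hN0.le hLp1)
    exact_mod_cast a1
  have hXn0 : n0 ≤ X1 := by
    have a1 : (n0 : ℝ) ≤ X1 := by
      have := le_max_left (n0 : ℝ) (n1 + 2)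
      linarith
    exact_mod_cast a1
  have hXn1 : n1 + 2 ≤ X1 := by
    have a1 : ((n1 + 2 : ℕ) : ℝ) ≤ X1 := by
      have := le_max_right (n0 : ℝ) (n1 + 2)
      push_cast
      linarith
    exact_mod_cast a1
  have hX0 : (0 : ℝ) < X1 := by linarith
  have hlogX : L / 2 ≤ Real.log X1 := by
    have a1 := Real.log_le_log (by linarith) hXge
    rw [hs, Real.log_rpow hN0, ← hL] at a1
    linarith
  -- the points and values
  obtain ⟨x, hx⟩ : ∃ x : ℕ → ℝ, x = fun n : ℕ => α * (ρ i : ℝ) * (n : ℝ) := ⟨_, rfl⟩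
  have hxn0 : ∀ n : ℕ, n0 ≤ n → 2 ≤ x n := fun n hn => by
    rw [hx]
    exact hn0 i n hn
  have hxm : ∀ n : ℕ, x n ≤ x (n + 1) := fun n => by
    rw [hx]
    exact hmono i n
  have hxc : ∀ n : ℕ, α * (n : ℝ) ≤ x n := fun n => by
    rw [hx]
    exact hcomp i n
  have hpart : ∀ X : ℕ, X1 ≤ X → X ≤ N → ‖∑ n ∈ Icc 1 X, a i n * tb (⌊x n⌋₊ + 1)‖ ≤ X / Real.log X ^ (K + 1) := by
    intro X h1 h2
    rw [hx]
    refine hn1 X (by omega) i ?_
    have h3 : N ≤ X ^ 2 := by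
      have h4 : (N : ℝ) ≤ (X : ℝ) ^ 2 := by
        have h5 : s ≤ X := hXge.trans (by exact_mod_cast h1)
        nlinarith
      exact_mod_cast h4
    exact hR h3 hi
  have egoal : ∑ n ∈ Icc 1 N, a i n * (ip (⌊α * (ρ i : ℝ) * (n : ℝ)⌋₊ + 1) - (gd (α * (ρ i : ℝ) * (n : ℝ)) : ℂ)) =
      ∑ n ∈ Icc 1 N, a i n * (ip (⌊x n⌋₊ + 1) - (gd (x n) : ℂ)) := by
    rw [hx]
  rw [egoal]
  have hai := ha i
  generalize a i = a' at hai hpart ⊢
  -- decomposition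
  have e1 : ∑ n ∈ Icc 1 N, a' n * (ip (⌊x n⌋₊ + 1) - (gd (x n) : ℂ)) =
      ∑ n ∈ Icc 1 X1, a' n * (ip (⌊x n⌋₊ + 1) - (gd (x n) : ℂ)) +
      (∑ n ∈ Ioc X1 N, (a' n * tb (⌊x n⌋₊ + 1)) * (gd (x n) : ℂ) +
      ∑ n ∈ Ioc X1 N, a' n * (ip (⌊x n⌋₊ + 1) - (gd (x n) : ℂ) * (om (⌊x n⌋₊ + 1) : ℂ))) := by
    rw [← Finset.sum_add_distrib]
    have e2 : Icc 1 N = Icc 1 X1 ∪ Ioc X1 N := by
      ext m
      rw [Finset.mem_union, Finset.mem_Icc, Finset.mem_Icc, Finset.mem_Ioc]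
      omega
    rw [e2, Finset.sum_union (by
      rw [Finset.disjoint_left]
      intro m h1 h2
      rw [Finset.mem_Icc] at h1
      rw [Finset.mem_Ioc] at h2
      omega)]
    congr 1
    refine Finset.sum_congr rfl fun n _ => ?_
    unfold tb
    push_cast
    ring
  rw [e1]
  -- first part
  have p1 : ‖∑ n ∈ Icc 1 X1, a' n * (ip (⌊x n⌋₊ + 1) - (gd (x n) : ℂ))‖ ≤ (3 * M) * (N / L ^ (K + 1)) := by
    refine (norm_sum_le _ _).trans ?_
    calc ∑ n ∈ Icc 1 X1, ‖a' n * (ip (⌊x n⌋₊ + 1) - (gd (x n) : ℂ))‖ ≤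
          ∑ n ∈ Icc 1 X1, (3 * M) := by
          refine Finset.sum_le_sum fun n _ => ?_
          rw [norm_mul]
          have b1 : ‖ip (⌊x n⌋₊ + 1) - (gd (x n) : ℂ)‖ ≤ 3 := by
            refine (norm_sub_le _ _).trans ?_
            have b2 := ip_le (⌊x n⌋₊ + 1)
            have b3 : ‖(gd (x n) : ℂ)‖ ≤ 2 := by
              rw [Complex.norm_real, Real.norm_eq_abs, abs_of_nonneg (gd_nonneg _)]
              exact gd_le _
            linarith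
          calc ‖a' n‖ * ‖ip (⌊x n⌋₊ + 1) - (gd (x n) : ℂ)‖ ≤ M * 3 :=
                mul_le_mul (hai n) b1 (norm_nonneg _) hM0
            _ = 3 * M := mul_comm _ _
      _ = X1 * (3 * M) := by
          rw [Finset.sum_const, Nat.card_Icc, Nat.add_sub_cancel, nsmul_eq_mul]
      _ ≤ (3 * M) * (N / L ^ (K + 1)) := by
          rw [mul_comm]
          exact mul_le_mul_of_nonneg_left hXle (by positivity)
  -- second part
  have p2 : ‖∑ n ∈ Ioc X1 N, (a' n * tb (⌊x n⌋₊ + 1)) * (gd (x n) : ℂ)‖ ≤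
      (6 * 2 ^ (K + 1)) * (N / L ^ (K + 1)) := by
    have q1 : ∀ X : ℕ, X1 ≤ X → X ≤ N → ‖∑ m ∈ Icc 1 X, a' m * tb (⌊x m⌋₊ + 1)‖ ≤
        2 ^ (K + 1) * (N / L ^ (K + 1)) := by
      intro X hx1 hx2
      refine (hpart X hx1 hx2).trans ?_
      have r1 : L / 2 ≤ Real.log X := hlogX.trans (Real.log_le_log hX0 (by exact_mod_cast hx1))
      have r2 : (L / 2) ^ (K + 1) ≤ Real.log X ^ (K + 1) := pow_le_pow_left₀ (by positivity) r1 _
      calc (X : ℝ) / Real.log X ^ (K + 1) ≤ N / (L / 2) ^ (K + 1) := by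
            apply div_le_div₀ hN0.le (by exact_mod_cast hx2) (by positivity) r2
        _ = 2 ^ (K + 1) * (N / L ^ (K + 1)) := by
            rw [div_pow]
            field_simp
    have q2 := anti_sum (fun n : ℕ => (gd (x n) : ℂ)) (fun n : ℕ => gd (x n))
      (fun _ => rfl) n0 X1 N hXn0 hXN (fun n hn => gd_anti (hxn0 n hn) (hxm n)) 2 (fun _ => gd_nonneg _)
      (fun _ => gd_le _)
    have q3 := abel_le (fun n : ℕ => a' n * tb (⌊x n⌋₊ + 1))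
      (fun n : ℕ => (gd (x n) : ℂ)) X1 N hXN (2 ^ (K + 1) * (N / L ^ (K + 1))) 2 2 q1
      (fun m _ => by
        rw [Complex.norm_real, Real.norm_eq_abs, abs_of_nonneg (gd_nonneg _)]
        exact gd_le _) q2
    refine q3.trans (le_of_eq ?_)
    ring
  -- third part
  have p3 : ‖∑ n ∈ Ioc X1 N, a' n * (ip (⌊x n⌋₊ + 1) - (gd (x n) : ℂ) *
      (om (⌊x n⌋₊ + 1) : ℂ))‖ ≤ M * (N / L ^ (K + 1)) := by
    refine (norm_sum_le _ _).trans ?_
    have r1 : ∀ n ∈ Ioc X1 N, ‖a' n * (ip (⌊x n⌋₊ + 1) - (gd (x n) : ℂ) *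
        (om (⌊x n⌋₊ + 1) : ℂ))‖ ≤ M * (1 / L ^ (K + 1)) := by
      intro n hn
      rw [Finset.mem_Ioc] at hn
      rw [norm_mul]
      apply mul_le_mul (hai n) _ (norm_nonneg _) hM0
      refine (ip_om1 (hxn0 n (by omega))).trans ?_
      have b1 : s ≤ n := hXge.trans (by exact_mod_cast hn.1.le)
      have b3 : 4 / α * L ^ (K + 1) ≤ (n : ℝ) := g5.trans b1
      rw [div_le_div_iff₀ (by
        have := hxn0 n (by omega)
        linarith) hLp]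
      have b4 : α * (4 / α * L ^ (K + 1)) ≤ α * (n : ℝ) := mul_le_mul_of_nonneg_left b3 hα0.le
      have b5 : α * (4 / α * L ^ (K + 1)) = 4 * L ^ (K + 1) := by field_simp
      have b6 := hxc n
      linarith
    calc ∑ n ∈ Ioc X1 N, _ ≤ ∑ n ∈ Ioc X1 N, M * (1 / L ^ (K + 1)) := Finset.sum_le_sum r1
      _ = ((N - X1 : ℕ) : ℝ) * (M * (1 / L ^ (K + 1))) := by
          rw [Finset.sum_const, Nat.card_Ioc, nsmul_eq_mul]
      _ ≤ N * (M * (1 / L ^ (K + 1))) := by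
          apply mul_le_mul_of_nonneg_right _ (by positivity)
          exact_mod_cast Nat.sub_le _ _
      _ = _ := by ring
  have hfin : (3 * M + 6 * 2 ^ (K + 1) + M) * (N / L ^ (K + 1)) ≤ N / L ^ K := by
    have c1 : N / L ^ K = L * (N / L ^ (K + 1)) := by
      rw [pow_succ]
      field_simp
    rw [c1]
    exact mul_le_mul_of_nonneg_right g1 (by positivity)
  calc ‖_ + (_ + _)‖ ≤ (3 * M) * (N / L ^ (K + 1)) + ((6 * 2 ^ (K + 1)) * (N / L ^ (K + 1)) + M * (N / L ^ (K + 1))) :=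
        (norm_add_le _ _).trans (add_le_add p1 ((norm_add_le _ _).trans (add_le_add p2 p3)))
    _ = (3 * M + 6 * 2 ^ (K + 1) + M) * (N / L ^ (K + 1)) := by ring
    _ ≤ _ := hfin

/-- logarithms of squares -/
theorem log_sq_le (B : ℕ) : ∀ᶠ X : ℕ in atTop, Real.log ((X ^ 2 : ℕ) : ℝ) ^ B ≤ Real.log X ^ (B + 1) := by
  filter_upwards [ev_logge (2 ^ B)] with X h1
  have h0 : 0 ≤ Real.log (X : ℝ) := Real.log_natCast_nonneg X
  push_cast
  rw [Real.log_pow, mul_pow, pow_succ, mul_comm]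
  push_cast
  exact mul_le_mul_of_nonneg_left h1 (by positivity)

/-- **prime values, for families** -/
theorem prime_fam {ι : Type*} (R : ℕ → Finset ι) (hR : Monotone R) (D B : ℕ)
    (hD : ∀ᶠ N : ℕ in atTop, ((R N).card : ℝ) ≤ Real.log N ^ D) (ρ : ι → ℕ) (hρ1 : ∀ i, 1 ≤ ρ i)
    (hρ : ∀ᶠ N : ℕ in atTop, ∀ i ∈ R N, (ρ i : ℝ) ≤ Real.log N ^ B) (a : ι → ℕ → ℂ) (M : ℝ) (hM0 : 0 ≤ M)
    (ha : ∀ i n, ‖a i n‖ ≤ M) :
    ∀ᵐ α : ℝ, 0 < α → ∀ K : ℕ, ∀ᶠ N : ℕ in atTop, ∀ i ∈ R N,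
      ‖∑ n ∈ Icc 1 N, a i n * (ip (⌊α * (ρ i : ℝ) * (n : ℝ)⌋₊ + 1) - (gd (α * (ρ i : ℝ) * (n : ℝ)) : ℂ))‖ ≤
        N / Real.log N ^ K := by
  have hsq : Tendsto (fun X : ℕ => X ^ 2) atTop atTop := tendsto_pow_atTop (by norm_num)
  have h1 : Monotone (fun X : ℕ => R (X ^ 2)) := fun X Y h => hR (Nat.pow_le_pow_left h 2)
  have h2 : ∀ᶠ X : ℕ in atTop, ((R (X ^ 2)).card : ℝ) ≤ Real.log X ^ (D + 1) := by
    filter_upwards [hsq.eventually hD, log_sq_le D] with X a1 a2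
    exact a1.trans a2
  have h3 : ∀ᶠ X : ℕ in atTop, ∀ i ∈ R (X ^ 2), (ρ i : ℝ) ≤ Real.log X ^ (B + 1) := by
    filter_upwards [hsq.eventually hρ, log_sq_le B] with X a1 a2 i hi
    exact (a1 i hi).trans a2
  filter_upwards [fam_dil tb tb_le tb_neg (fun X : ℕ => R (X ^ 2)) h1 (D + 1) (B + 1) h2 ρ hρ1 h3 a M ha] with
    α hα hα0 K
  exact prime_core_fam α hα0 R hR ρ hρ1 a M hM0 ha (hα hα0) K

end Pool.Agent.D0H76.UG
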