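import Mathlib
import Pool.Agent.D0H76.UG.Pr
import Pool.Agent.D0H91.MG.TupR

/-! Uniform generic dilations: several generic dilations at the same time. -/

set_option autoImplicit false

namespace Pool.Agent.D0H76.UG

open Finset MeasureTheory Filter Topology
open Pool.Agent.D0H91.MG (ev_logge ev_logpow ip gd gd_nonneg gd_le ip_le coord_meas pos_meas meas_factor gd_factor
  fubini_ae fubini_ae')

/-- a family of families of functions is small at almost every point: the exceptional set is measurable -/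
theorem small_meas_fam {ι : Type*} {r : ℕ} (R : ℕ → Finset ι) (F : ℕ → ι → (Fin r → ℝ) → ℂ)
    (hF : ∀ N i, Measurable (F N i)) :
    MeasurableSet {α : Fin r → ℝ | (∀ i, 0 < α i) → ∀ K : ℕ, ∀ᶠ N : ℕ in atTop, ∀ i ∈ R N,
      ‖F N i α‖ ≤ N / Real.log N ^ K} := by
  have e : {α : Fin r → ℝ | (∀ i, 0 < α i) → ∀ K : ℕ, ∀ᶠ N : ℕ in atTop, ∀ i ∈ R N,
      ‖F N i α‖ ≤ N / Real.log N ^ K} =
      (⋂ i, {α : Fin r → ℝ | 0 < α i})ᶜ ∪ ⋂ K : ℕ, ⋃ N0 : ℕ, ⋂ N : ℕ, ⋂ (_ : N0 ≤ N), ⋂ i ∈ R N,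
        {α : Fin r → ℝ | ‖F N i α‖ ≤ N / Real.log N ^ K} := by
    ext α
    rw [Set.mem_union, Set.mem_compl_iff, Set.mem_iInter]
    simp only [Set.mem_iInter, Set.mem_iUnion]
    change ((∀ i, 0 < α i) → ∀ K : ℕ, ∀ᶠ N : ℕ in atTop, ∀ i ∈ R N, ‖F N i α‖ ≤ N / Real.log N ^ K) ↔ _
    rw [imp_iff_not_or]
    apply or_congr Iff.rfl
    apply forall_congr'
    intro K
    exact eventually_atTop
  rw [e]
  refine MeasurableSet.union (MeasurableSet.compl (MeasurableSet.iInter fun i => pos_meas i))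
    (MeasurableSet.iInter fun K => MeasurableSet.iUnion fun N0 =>
      MeasurableSet.iInter fun N => MeasurableSet.iInter fun _ => ?_)
  refine Finset.measurableSet_biInter _ fun i _ => ?_
  exact measurableSet_le (hF N i).norm measurable_const

/-- the difference between the indicator of simultaneous primes and the density -/
noncomputable def Dq {r : ℕ} (s : Fin r → ℕ) (α : Fin r → ℝ) (n : ℕ) : ℂ :=
  ∏ j, ip (⌊α j * (s j : ℝ) * (n : ℝ)⌋₊ + 1) - ∏ j, (gd (α j * (s j : ℝ) * (n : ℝ)) : ℂ)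

theorem Dq_succ {r : ℕ} (s : Fin (r + 1) → ℕ) (α : Fin (r + 1) → ℝ) (n : ℕ) :
    Dq s α n = (∏ j : Fin r, ip (⌊α j.succ * (s j.succ : ℝ) * (n : ℝ)⌋₊ + 1)) *
      (ip (⌊α 0 * (s 0 : ℝ) * (n : ℝ)⌋₊ + 1) - (gd (α 0 * (s 0 : ℝ) * (n : ℝ)) : ℂ)) +
      (gd (α 0 * (s 0 : ℝ) * (n : ℝ)) : ℂ) * Dq (fun j => s j.succ) (fun j => α j.succ) n := by
  unfold Dq
  rw [Fin.prod_univ_succ, Fin.prod_univ_succ]
  ring

theorem ip_meas {r : ℕ} (j : Fin r) (s n : ℝ) :
    Measurable (fun α : Fin r → ℝ => ip (⌊α j * s * n⌋₊ + 1)) := by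
  have h := meas_factor (fun m => ip (m + 1)) j (s * n)
  have e : (fun α : Fin r → ℝ => ip (⌊α j * s * n⌋₊ + 1)) = fun α : Fin r → ℝ => ip (⌊α j * (s * n)⌋₊ + 1) := by
    funext α
    rw [mul_assoc]
  rw [e]
  exact h

theorem gd_meas' {r : ℕ} (j : Fin r) (s n : ℝ) :
    Measurable (fun α : Fin r → ℝ => (gd (α j * s * n) : ℂ)) := by
  have h := gd_factor j (s * n)
  have e : (fun α : Fin r → ℝ => (gd (α j * s * n) : ℂ)) = fun α : Fin r → ℝ => (gd (α j * (s * n)) : ℂ) := by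
    funext α
    rw [mul_assoc]
  rw [e]
  exact h

theorem fam_several {ι : Type*} (R : ℕ → Finset ι) (hR : Monotone R) (D B : ℕ)
    (hD : ∀ᶠ N : ℕ in atTop, ((R N).card : ℝ) ≤ Real.log N ^ D) (r : ℕ) :
    ∀ (σ : ι → Fin r → ℕ), (∀ i j, 1 ≤ σ i j) →
    (∀ᶠ N : ℕ in atTop, ∀ i ∈ R N, ∀ j, (σ i j : ℝ) ≤ Real.log N ^ B) →
    ∀ (a : ι → ℕ → ℂ) (M : ℝ), 0 ≤ M → (∀ i n, ‖a i n‖ ≤ M) →
    ∀ᵐ α : Fin r → ℝ, (∀ j, 0 < α j) → ∀ K : ℕ, ∀ᶠ N : ℕ in atTop, ∀ i ∈ R N,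
      ‖∑ n ∈ Icc 1 N, a i n * Dq (σ i) α n‖ ≤ N / Real.log N ^ K := by
  induction r with
  | zero =>
    intro σ _ _ a M _ _
    refine Eventually.of_forall fun α _ K => Eventually.of_forall fun N i _ => ?_
    have e : ∑ n ∈ Icc 1 N, a i n * Dq (σ i) α n = 0 := by
      apply Finset.sum_eq_zero
      intro n _
      unfold Dq
      simp
    rw [e, norm_zero]
    have := Real.log_natCast_nonneg N
    positivity
  | succ r ih =>
    intro σ hσ1 hσ a M hM0 ha
    have A1 : ∀ᵐ α : Fin (r + 1) → ℝ, (∀ j, 0 < α j) → ∀ K : ℕ, ∀ᶠ N : ℕ in atTop, ∀ i ∈ R N,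
        ‖∑ n ∈ Icc 1 N, a i n * ((∏ j : Fin r, ip (⌊α j.succ * (σ i j.succ : ℝ) * (n : ℝ)⌋₊ + 1)) *
          (ip (⌊α 0 * (σ i 0 : ℝ) * (n : ℝ)⌋₊ + 1) - (gd (α 0 * (σ i 0 : ℝ) * (n : ℝ)) : ℂ)))‖ ≤
            N / Real.log N ^ K := by
      refine fubini_ae (P := fun α => (∀ j, 0 < α j) → ∀ K : ℕ, ∀ᶠ N : ℕ in atTop, ∀ i ∈ R N,
        ‖∑ n ∈ Icc 1 N, a i n * ((∏ j : Fin r, ip (⌊α j.succ * (σ i j.succ : ℝ) * (n : ℝ)⌋₊ + 1)) *
          (ip (⌊α 0 * (σ i 0 : ℝ) * (n : ℝ)⌋₊ + 1) - (gd (α 0 * (σ i 0 : ℝ) * (n : ℝ)) : ℂ)))‖ ≤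
            N / Real.log N ^ K)
        (small_meas_fam R (fun N i α => ∑ n ∈ Icc 1 N, a i n *
          ((∏ j : Fin r, ip (⌊α j.succ * (σ i j.succ : ℝ) * (n : ℝ)⌋₊ + 1)) *
          (ip (⌊α 0 * (σ i 0 : ℝ) * (n : ℝ)⌋₊ + 1) - (gd (α 0 * (σ i 0 : ℝ) * (n : ℝ)) : ℂ)))) fun N i => ?_) ?_
      · refine Finset.measurable_fun_sum _ fun n _ => measurable_const.mul (Measurable.mul ?_ ?_)
        · exact Finset.measurable_fun_prod _ fun j _ => ip_meas j.succ _ _
        · exact (ip_meas 0 _ _).sub (gd_meas' 0 _ _)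
      · refine Eventually.of_forall fun β => ?_
        have h1 := prime_fam R hR D B hD (fun i => σ i 0) (fun i => hσ1 i 0)
          (by
            filter_upwards [hσ] with N hN i hi
            exact hN i hi 0)
          (fun i n => a i n * ∏ j : Fin r, ip (⌊β j * (σ i j.succ : ℝ) * (n : ℝ)⌋₊ + 1)) M hM0
          (fun i n => by
            rw [norm_mul, norm_prod]
            calc ‖a i n‖ * ∏ j : Fin r, ‖ip (⌊β j * (σ i j.succ : ℝ) * (n : ℝ)⌋₊ + 1)‖ ≤ M * 1 := by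
                  apply mul_le_mul (ha i n) _ (Finset.prod_nonneg fun _ _ => norm_nonneg _) hM0
                  exact Finset.prod_le_one (fun _ _ => norm_nonneg _) fun _ _ => ip_le _
              _ = M := mul_one M)
        filter_upwards [h1] with t ht hpos K
        have h2 := ht (by simpa using hpos 0) K
        filter_upwards [h2] with N h3 i hi
        refine le_trans (le_of_eq ?_) (h3 i hi)
        congr 1
        refine Finset.sum_congr rfl fun n _ => ?_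
        simp only [Fin.cons_zero, Fin.cons_succ]
        ring
    have A2 : ∀ᵐ α : Fin (r + 1) → ℝ, (∀ j, 0 < α j) → ∀ K : ℕ, ∀ᶠ N : ℕ in atTop, ∀ i ∈ R N,
        ‖∑ n ∈ Icc 1 N, a i n * ((gd (α 0 * (σ i 0 : ℝ) * (n : ℝ)) : ℂ) *
          Dq (fun j => σ i j.succ) (fun j => α j.succ) n)‖ ≤ N / Real.log N ^ K := by
      refine fubini_ae' (P := fun α => (∀ j, 0 < α j) → ∀ K : ℕ, ∀ᶠ N : ℕ in atTop, ∀ i ∈ R N,
        ‖∑ n ∈ Icc 1 N, a i n * ((gd (α 0 * (σ i 0 : ℝ) * (n : ℝ)) : ℂ) *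
          Dq (fun j => σ i j.succ) (fun j => α j.succ) n)‖ ≤ N / Real.log N ^ K)
        (small_meas_fam R (fun N i α => ∑ n ∈ Icc 1 N, a i n * ((gd (α 0 * (σ i 0 : ℝ) * (n : ℝ)) : ℂ) *
          Dq (fun j => σ i j.succ) (fun j => α j.succ) n)) fun N i => ?_) ?_
      · refine Finset.measurable_fun_sum _ fun n _ => measurable_const.mul (Measurable.mul ?_ ?_)
        · exact gd_meas' 0 _ _
        · unfold Dq
          apply Measurable.sub
          · exact Finset.measurable_fun_prod _ fun j _ => ip_meas j.succ _ _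
          · exact Finset.measurable_fun_prod _ fun j _ => gd_meas' j.succ _ _
      · refine Eventually.of_forall fun t => ?_
        have h1 := ih (fun i j => σ i j.succ) (fun i j => hσ1 i j.succ)
          (by
            filter_upwards [hσ] with N hN i hi j
            exact hN i hi j.succ)
          (fun i n => a i n * (gd (t * (σ i 0 : ℝ) * (n : ℝ)) : ℂ))
          (M * 2) (by positivity) (fun i n => by
            rw [norm_mul]
            apply mul_le_mul (ha i n) _ (norm_nonneg _) hM0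
            rw [Complex.norm_real, Real.norm_eq_abs, abs_of_nonneg (gd_nonneg _)]
            exact gd_le _)
        filter_upwards [h1] with β hβ hpos K
        have h2 := hβ (fun j => by simpa using hpos j.succ) K
        filter_upwards [h2] with N h3 i hi
        refine le_trans (le_of_eq ?_) (h3 i hi)
        congr 1
        refine Finset.sum_congr rfl fun n _ => ?_
        simp only [Fin.cons_zero, Fin.cons_succ]
        ring
    filter_upwards [A1, A2] with α h1 h2 hpos K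
    filter_upwards [h1 hpos (K + 1), h2 hpos (K + 1), ev_logge 2] with N h3 h4 h5 i hi
    have e : ∑ n ∈ Icc 1 N, a i n * Dq (σ i) α n =
        ∑ n ∈ Icc 1 N, a i n * ((∏ j : Fin r, ip (⌊α j.succ * (σ i j.succ : ℝ) * (n : ℝ)⌋₊ + 1)) *
          (ip (⌊α 0 * (σ i 0 : ℝ) * (n : ℝ)⌋₊ + 1) - (gd (α 0 * (σ i 0 : ℝ) * (n : ℝ)) : ℂ))) +
        ∑ n ∈ Icc 1 N, a i n * ((gd (α 0 * (σ i 0 : ℝ) * (n : ℝ)) : ℂ) *
          Dq (fun j => σ i j.succ) (fun j => α j.succ) n) := by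
      rw [← Finset.sum_add_distrib]
      refine Finset.sum_congr rfl fun n _ => ?_
      rw [Dq_succ]
      ring
    rw [e]
    refine (norm_add_le _ _).trans ((add_le_add (h3 i hi) (h4 i hi)).trans ?_)
    have hL0 : 0 < Real.log (N : ℝ) := by linarith
    have c1 : (N : ℝ) / Real.log N ^ K = Real.log N * (N / Real.log N ^ (K + 1)) := by
      rw [pow_succ]
      field_simp
    rw [c1]
    have c2 : 0 ≤ (N : ℝ) / Real.log N ^ (K + 1) := by positivity
    nlinarith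

end Pool.Agent.D0H76.UG
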