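import Mathlib
import Pool.Agent.D0H76.UG.Sev

/-! Uniform generic dilations: counting in `[x, 2x)`. -/

set_option autoImplicit false

namespace Pool.Agent.D0H76.UG

open Finset MeasureTheory Filter Topology
open Pool.Agent.D0H91.MG (ip gd)

theorem ev_logR (B : ℕ) (c η : ℝ) (hη : 0 < η) : ∀ᶠ x : ℝ in atTop, c * Real.log x ^ B ≤ x ^ η := by
  have h1 := (isLittleO_log_rpow_rpow_atTop (B : ℝ) hη).bound (show (0 : ℝ) < 1 / (|c| + 1) by positivity)
  filter_upwards [h1, eventually_ge_atTop 1] with x hx hx1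
  have hl : 0 ≤ Real.log x := Real.log_nonneg hx1
  have hx0 : (0 : ℝ) ≤ x := by linarith
  rw [Real.rpow_natCast, Real.norm_of_nonneg (by positivity), Real.norm_of_nonneg (by positivity)] at hx
  have hc : 0 < |c| + 1 := by positivity
  calc c * Real.log x ^ B ≤ (|c| + 1) * Real.log x ^ B := by
        apply mul_le_mul_of_nonneg_right _ (by positivity)
        linarith [le_abs_self c]
    _ ≤ (|c| + 1) * (1 / (|c| + 1) * x ^ η) := mul_le_mul_of_nonneg_left hx hc.le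
    _ = x ^ η := by field_simp

theorem ev_logx (c : ℝ) : ∀ᶠ x : ℝ in atTop, c ≤ Real.log x := Real.tendsto_log_atTop.eventually_ge_atTop c

theorem n1_tendsto : Tendsto (fun x : ℝ => ⌈x⌉₊ - 1) atTop atTop :=
  (tendsto_sub_atTop_nat 1).comp tendsto_nat_ceil_atTop

theorem n2_tendsto : Tendsto (fun x : ℝ => ⌈2 * x⌉₊ - 1) atTop atTop :=
  n1_tendsto.comp (tendsto_id.const_mul_atTop two_pos)

/-- the integer just below `x` -/
theorem ev_n1 : ∀ᶠ x : ℝ in atTop, Real.log x / 2 ≤ Real.log ((⌈x⌉₊ - 1 : ℕ) : ℝ) := by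
  filter_upwards [eventually_ge_atTop 4] with x hx
  have hx0 : 0 < x := by linarith
  have h1 : x - 1 ≤ ((⌈x⌉₊ - 1 : ℕ) : ℝ) := by
    have h2 : x ≤ (⌈x⌉₊ : ℝ) := Nat.le_ceil x
    have h3 : 1 ≤ ⌈x⌉₊ := Nat.one_le_ceil_iff.2 hx0
    rw [Nat.cast_sub h3]
    push_cast
    linarith
  have h4 : Real.sqrt x ≤ x - 1 := by
    rw [Real.sqrt_le_left (by linarith)]
    nlinarith
  have h5 : Real.log (Real.sqrt x) = Real.log x / 2 := Real.log_sqrt hx0.le
  rw [← h5]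
  exact Real.log_le_log (Real.sqrt_pos.2 hx0) (h4.trans h1)

theorem ev_pow (B : ℕ) : ∀ᶠ x : ℝ in atTop, Real.log x ^ B ≤ Real.log ((⌈x⌉₊ - 1 : ℕ) : ℝ) ^ (B + 1) := by
  filter_upwards [ev_n1, ev_logx (2 * 2 ^ B), ev_logx 0] with x h1 h2 h3
  have h4 : 2 ^ B ≤ Real.log ((⌈x⌉₊ - 1 : ℕ) : ℝ) := by linarith
  calc Real.log x ^ B ≤ (2 * Real.log ((⌈x⌉₊ - 1 : ℕ) : ℝ)) ^ B := pow_le_pow_left₀ h3 (by linarith) _
    _ = 2 ^ B * Real.log ((⌈x⌉₊ - 1 : ℕ) : ℝ) ^ B := mul_pow _ _ _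
    _ ≤ Real.log ((⌈x⌉₊ - 1 : ℕ) : ℝ) * Real.log ((⌈x⌉₊ - 1 : ℕ) : ℝ) ^ B := by
        apply mul_le_mul_of_nonneg_right h4
        have : 0 ≤ Real.log ((⌈x⌉₊ - 1 : ℕ) : ℝ) := by linarith
        positivity
    _ = _ := by rw [pow_succ, mul_comm]

/-! ### the density -/

theorem near_one (l : ℕ) {ε : ℝ} (hε : 0 < ε) : ∃ δ : ℝ, 0 < δ ∧ δ ≤ 1 ∧ (1 + δ) ^ l ≤ 1 + ε ∧ 1 - ε ≤ (1 - δ) ^ l := by
  have h1 : ContinuousAt (fun t : ℝ => (1 + t) ^ l) 0 := by fun_prop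
  have h2 : ContinuousAt (fun t : ℝ => (1 - t) ^ l) 0 := by fun_prop
  rw [Metric.continuousAt_iff] at h1 h2
  obtain ⟨δ1, h3, h4⟩ := h1 ε hε
  obtain ⟨δ2, h5, h6⟩ := h2 ε hε
  refine ⟨min (min (δ1 / 2) (δ2 / 2)) 1, by positivity, min_le_right _ _, ?_, ?_⟩
  · have a1 : min (min (δ1 / 2) (δ2 / 2)) 1 ≤ δ1 / 2 := (min_le_left _ _).trans (min_le_left _ _)
    have a0 : 0 < min (min (δ1 / 2) (δ2 / 2)) 1 := by positivity
    have a2 := h4 (x := min (min (δ1 / 2) (δ2 / 2)) 1) (by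
      rw [Real.dist_eq, sub_zero, abs_of_pos a0]
      linarith)
    rw [Real.dist_eq] at a2
    simp only [add_zero, one_pow] at a2
    linarith [(abs_lt.1 a2).2]
  · have a1 : min (min (δ1 / 2) (δ2 / 2)) 1 ≤ δ2 / 2 := (min_le_left _ _).trans (min_le_right _ _)
    have a0 : 0 < min (min (δ1 / 2) (δ2 / 2)) 1 := by positivity
    have a2 := h6 (x := min (min (δ1 / 2) (δ2 / 2)) 1) (by
      rw [Real.dist_eq, sub_zero, abs_of_pos a0]
      linarith)
    rw [Real.dist_eq] at a2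
    simp only [sub_zero, one_pow] at a2
    linarith [(abs_lt.1 a2).1]

/-- the density on `[x, 2x)` -/
theorem dens {l : ℕ} (α : Fin l → ℝ) (hα : ∀ j, 0 < α j) (B : ℕ) {ε : ℝ} (hε : 0 < ε) :
    ∀ᶠ x : ℝ in atTop, ∀ s : Fin l → ℕ, (∀ j, 1 ≤ s j ∧ (s j : ℝ) ≤ Real.log x ^ B) →
      ∀ q : ℕ, x ≤ q → (q : ℝ) < 2 * x →
      |∏ j, gd (α j * (s j : ℝ) * (q : ℝ)) - 1 / Real.log x ^ l| ≤ ε / Real.log x ^ l := by
  obtain ⟨δ, hδ0, hδ1, hδ2, hδ3⟩ := near_one l hε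
  -- a bound for the dilations
  obtain ⟨C, hC1, hC⟩ : ∃ C : ℝ, 1 ≤ C ∧ ∀ j, α j ≤ C ∧ C⁻¹ ≤ α j := by
    refine ⟨1 + ∑ j, (α j + (α j)⁻¹), ?_, fun j => ?_⟩
    · have : 0 ≤ ∑ j, (α j + (α j)⁻¹) := Finset.sum_nonneg fun j _ => by
        have := hα j
        positivity
      linarith
    · have h1 : α j + (α j)⁻¹ ≤ ∑ j, (α j + (α j)⁻¹) :=
        Finset.single_le_sum (f := fun j => α j + (α j)⁻¹) (fun j _ => by
          have := hα j
          positivity) (Finset.mem_univ j)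
      have h2 := hα j
      have h3 : 0 < (α j)⁻¹ := by positivity
      constructor
      · linarith
      · rw [inv_le_comm₀ (by linarith) h2]
        linarith
  filter_upwards [ev_logR B (2 * C) (δ / 2) (by positivity), ev_logR 0 C (δ / 2) (by positivity), ev_logx 1,
    (tendsto_rpow_atTop (y := 1 / 2) (by norm_num)).eventually_ge_atTop (2 : ℝ), eventually_ge_atTop 4] with x h1 h2 h3 h4 h5 s hs q hq1 hq2
  have hx0 : 0 < x := by linarith
  have hx1 : 1 ≤ x := by linarith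
  have hL0 : 0 < Real.log x := by linarith
  rw [pow_zero, mul_one] at h2
  have hC0 : 0 < C := by linarith
  have hu : ∀ j, (1 - δ) / Real.log x ≤ gd (α j * (s j : ℝ) * (q : ℝ)) ∧
      gd (α j * (s j : ℝ) * (q : ℝ)) ≤ (1 + δ) / Real.log x := by
    intro j
    obtain ⟨c1, c2⟩ := hC j
    obtain ⟨s1, s2⟩ := hs j
    have hαj := hα j
    have hs1 : (1 : ℝ) ≤ s j := by exact_mod_cast s1
    have hq0 : (0 : ℝ) < q := by linarith
    have up : α j * (s j : ℝ) * (q : ℝ) ≤ x ^ (1 + δ / 2) := by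
      rw [Real.rpow_add hx0, Real.rpow_one]
      calc α j * (s j : ℝ) * (q : ℝ) ≤ C * Real.log x ^ B * (2 * x) := by
            gcongr
        _ = x * (2 * C * Real.log x ^ B) := by ring
        _ ≤ x * x ^ (δ / 2) := mul_le_mul_of_nonneg_left h1 hx0.le
    have lo : x ^ (1 - δ / 2) ≤ α j * (s j : ℝ) * (q : ℝ) := by
      rw [Real.rpow_sub hx0, Real.rpow_one, div_le_iff₀ (by positivity)]
      calc x = C⁻¹ * 1 * x * C := by field_simp
        _ ≤ α j * (s j : ℝ) * (q : ℝ) * x ^ (δ / 2) := by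
            gcongr
    have lo2 : (2 : ℝ) ≤ α j * (s j : ℝ) * (q : ℝ) := by
      refine le_trans ?_ lo
      refine h4.trans (Real.rpow_le_rpow_of_exponent_le hx1 ?_)
      linarith
    have hp0 : 0 < α j * (s j : ℝ) * (q : ℝ) := by linarith
    have up' := Real.log_le_log hp0 up
    have lo' := Real.log_le_log (by positivity) lo
    rw [Real.log_rpow hx0] at up' lo'
    unfold gd
    rw [if_pos lo2]
    have hl0 : 0 < Real.log (α j * (s j : ℝ) * (q : ℝ)) := Real.log_pos (by linarith)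
    constructor
    · rw [div_le_div_iff₀ hL0 hl0]
      by_cases hδ1' : 0 ≤ 1 - δ
      · calc (1 - δ) * Real.log (α j * (s j : ℝ) * (q : ℝ)) ≤ (1 - δ) * ((1 + δ / 2) * Real.log x) :=
              mul_le_mul_of_nonneg_left up' hδ1'
          _ ≤ 1 * Real.log x := by
              rw [← mul_assoc]
              apply mul_le_mul_of_nonneg_right _ hL0.le
              nlinarith
      · exact absurd (by linarith) hδ1'
    · rw [div_le_div_iff₀ hl0 hL0]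
      calc 1 * Real.log x ≤ (1 + δ) * ((1 - δ / 2) * Real.log x) := by
            rw [← mul_assoc]
            apply mul_le_mul_of_nonneg_right _ hL0.le
            nlinarith
        _ ≤ (1 + δ) * Real.log (α j * (s j : ℝ) * (q : ℝ)) :=
            mul_le_mul_of_nonneg_left lo' (by linarith)
  have hLl : 0 < Real.log x ^ l := by positivity
  have e1 : (1 - δ) ^ l / Real.log x ^ l ≤ ∏ j, gd (α j * (s j : ℝ) * (q : ℝ)) := by
    rw [← div_pow]
    calc ((1 - δ) / Real.log x) ^ l = ∏ _j : Fin l, (1 - δ) / Real.log x := by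
          rw [Finset.prod_const, Finset.card_univ, Fintype.card_fin]
      _ ≤ _ := Finset.prod_le_prod (fun _ _ => div_nonneg (by linarith) hL0.le) fun j _ => (hu j).1
  have e2 : ∏ j, gd (α j * (s j : ℝ) * (q : ℝ)) ≤ (1 + δ) ^ l / Real.log x ^ l := by
    rw [← div_pow]
    calc ∏ j, gd (α j * (s j : ℝ) * (q : ℝ)) ≤ ∏ _j : Fin l, (1 + δ) / Real.log x :=
          Finset.prod_le_prod (fun _ _ => Pool.Agent.D0H91.MG.gd_nonneg _) fun j _ => (hu j).2
      _ = ((1 + δ) / Real.log x) ^ l := by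
          rw [Finset.prod_const, Finset.card_univ, Fintype.card_fin]
  have e3 : (1 + δ) ^ l / Real.log x ^ l ≤ (1 + ε) / Real.log x ^ l := div_le_div_of_nonneg_right hδ2 hLl.le
  have e4 : (1 - ε) / Real.log x ^ l ≤ (1 - δ) ^ l / Real.log x ^ l := div_le_div_of_nonneg_right hδ3 hLl.le
  rw [add_div] at e3
  rw [sub_div] at e4
  rw [abs_le]
  constructor <;> linarith

/-! ### counting -/

theorem mem_int {x : ℝ} (hx : 1 ≤ x) (q : ℕ) : q ∈ Ioc (⌈x⌉₊ - 1) (⌈2 * x⌉₊ - 1) ↔ x ≤ q ∧ (q : ℝ) < 2 * x := by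
  have h1 : 1 ≤ ⌈x⌉₊ := Nat.one_le_ceil_iff.2 (by linarith)
  have h2 : 1 ≤ ⌈2 * x⌉₊ := Nat.one_le_ceil_iff.2 (by linarith)
  rw [Finset.mem_Ioc, ← Nat.ceil_le, ← Nat.lt_ceil]
  omega

open Classical in
theorem count_eq {x : ℝ} (hx : 1 ≤ x) (P : ℕ → Prop) :
    (({q : ℕ | x ≤ q ∧ (q : ℝ) < 2 * x ∧ P q}.ncard : ℕ) : ℝ) =
      ∑ q ∈ Ioc (⌈x⌉₊ - 1) (⌈2 * x⌉₊ - 1), if P q then (1 : ℝ) else 0 := by
  have e : {q : ℕ | x ≤ q ∧ (q : ℝ) < 2 * x ∧ P q} =
      (((Ioc (⌈x⌉₊ - 1) (⌈2 * x⌉₊ - 1)).filter P : Finset ℕ) : Set ℕ) := by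
    ext q
    rw [Finset.coe_filter]
    change (x ≤ q ∧ (q : ℝ) < 2 * x ∧ P q) ↔ (q ∈ Ioc (⌈x⌉₊ - 1) (⌈2 * x⌉₊ - 1) ∧ P q)
    rw [mem_int hx, and_assoc]
  rw [e, Set.ncard_coe_finset, Finset.card_filter]
  push_cast
  rfl

open Classical in
theorem prod_ip {l : ℕ} (m : Fin l → ℕ) : ∏ j, ip (m j) = if ∀ j, (m j).Prime then 1 else 0 := by
  unfold ip
  rw [Finset.prod_ite_zero]
  simp

open Classical in
/-- **the core** -/
theorem core {ι : Type*} (R : ℕ → Finset ι) (hR : Monotone R) (D B : ℕ)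
    (hD : ∀ᶠ N : ℕ in atTop, ((R N).card : ℝ) ≤ Real.log N ^ D) (l : ℕ) (A : ι → Set ℕ) :
    ∀ᵐ α : Fin l → ℝ, (∀ j, 0 < α j) → ∀ (K : ℕ) (ε : ℝ), 0 < ε → ∀ᶠ x : ℝ in atTop,
      ∀ i ∈ R (⌈x⌉₊ - 1), ∀ s : Fin l → ℕ, (∀ j, 1 ≤ s j ∧ (s j : ℝ) ≤ Real.log x ^ B) →
      |((({q : ℕ | x ≤ q ∧ (q : ℝ) < 2 * x ∧ (q ∈ A i ∧ ∀ j, (⌊α j * s j * q⌋₊ + 1).Prime)}).ncard : ℕ) : ℝ) -
        (({q : ℕ | x ≤ q ∧ (q : ℝ) < 2 * x ∧ q ∈ A i}).ncard : ℕ) / Real.log x ^ l| ≤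
        ε * ((({q : ℕ | x ≤ q ∧ (q : ℝ) < 2 * x ∧ q ∈ A i}).ncard : ℕ) / Real.log x ^ l) +
          x / Real.log x ^ K := by
  set R' : ℕ → Finset (ι × (Fin l → ℕ)) := fun N =>
    R N ×ˢ Fintype.piFinset (fun _ => Icc 1 ⌊Real.log N ^ (B + 1)⌋₊) with hR'
  have hmono : Monotone R' := by
    intro N N' h
    simp only [hR']
    apply Finset.product_subset_product (hR h)
    apply Fintype.piFinset_subset
    intro _
    apply Finset.Icc_subset_Icc_right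
    apply Nat.floor_mono
    rcases Nat.eq_zero_or_pos N with h0 | h0
    · rw [h0]
      simp only [Nat.cast_zero, Real.log_zero]
      rw [zero_pow (by omega)]
      have := Real.log_natCast_nonneg N'
      positivity
    · exact pow_le_pow_left₀ (Real.log_natCast_nonneg N)
        (Real.log_le_log (by exact_mod_cast h0) (by exact_mod_cast h)) _
  have hcard : ∀ᶠ N : ℕ in atTop, ((R' N).card : ℝ) ≤ Real.log N ^ (D + (B + 1) * l) := by
    filter_upwards [hD] with N hN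
    have hL := Real.log_natCast_nonneg N
    simp only [hR']
    rw [Finset.card_product, Fintype.card_piFinset]
    push_cast
    have e : Real.log (N : ℝ) ^ (D + (B + 1) * l) = Real.log N ^ D * (Real.log N ^ (B + 1)) ^ l := by
      rw [pow_add, pow_mul]
    rw [e]
    refine mul_le_mul hN ?_ (by positivity) (by positivity)
    rw [Finset.prod_const, Finset.card_univ, Fintype.card_fin]
    apply pow_le_pow_left₀ (by positivity)
    rw [Nat.card_Icc, Nat.add_sub_cancel]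
    exact Nat.floor_le (by positivity)
  have hσ : ∀ᶠ N : ℕ in atTop, ∀ p ∈ R' N, ∀ j, ((max 1 (p.2 j) : ℕ) : ℝ) ≤ Real.log N ^ (B + 1) := by
    filter_upwards [Pool.Agent.D0H91.MG.ev_logge 1] with N hN p hp j
    simp only [hR'] at hp
    rw [Finset.mem_product, Fintype.mem_piFinset] at hp
    have h1 := (Finset.mem_Icc.1 (hp.2 j))
    rw [max_eq_right h1.1]
    exact (Nat.le_floor_iff (by positivity)).1 h1.2
  have key := fam_several R' hmono (D + (B + 1) * l) (B + 1) hcard l (fun p j => max 1 (p.2 j))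
    (fun p j => le_max_left _ _) hσ (fun p n => if n ∈ A p.1 then 1 else 0) 1 zero_le_one
    (fun p n => by split_ifs <;> simp)
  filter_upwards [key] with α hα hpos K ε hε
  have k1 := n1_tendsto.eventually (hα hpos (K + 1))
  have k2 := n2_tendsto.eventually (hα hpos (K + 1))
  filter_upwards [k1, k2, ev_pow B, ev_n1, dens α hpos B hε, ev_logx (3 * 2 ^ (K + 1)), ev_logx 1,
    eventually_ge_atTop 2] with x k1 k2 k3 k4 k5 k6 k7 k8 i hi s hs
  obtain ⟨N1, hN1⟩ : ∃ N1 : ℕ, N1 = ⌈x⌉₊ - 1 := ⟨_, rfl⟩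
  obtain ⟨N2, hN2⟩ : ∃ N2 : ℕ, N2 = ⌈2 * x⌉₊ - 1 := ⟨_, rfl⟩
  have hx0 : 0 < x := by linarith
  have hx1 : 1 ≤ x := by linarith
  have hN12 : N1 ≤ N2 := by
    rw [hN1, hN2]
    have : ⌈x⌉₊ ≤ ⌈2 * x⌉₊ := Nat.ceil_mono (by linarith)
    omega
  have hN1x : (N1 : ℝ) ≤ x := by
    have h1 : (⌈x⌉₊ : ℝ) < x + 1 := Nat.ceil_lt_add_one hx0.le
    have h3 : 1 ≤ ⌈x⌉₊ := Nat.one_le_ceil_iff.2 hx0
    rw [hN1, Nat.cast_sub h3]
    push_cast
    linarith
  have hN2x : (N2 : ℝ) ≤ 2 * x := by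
    have h1 : (⌈2 * x⌉₊ : ℝ) < 2 * x + 1 := Nat.ceil_lt_add_one (by linarith)
    have h3 : 1 ≤ ⌈2 * x⌉₊ := Nat.one_le_ceil_iff.2 (by linarith)
    rw [hN2, Nat.cast_sub h3]
    push_cast
    linarith
  have hmemx := fun q => mem_int hx1 q
  have hcount := fun P => count_eq hx1 P
  simp only [← hN1, ← hN2] at k1 k2 k3 k4 hi hmemx hcount
  have hlogN1 : 0 < Real.log (N1 : ℝ) := by linarith
  have hN1pos : (0 : ℝ) < N1 := by
    rcases Nat.eq_zero_or_pos N1 with h0 | h0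
    · rw [h0] at hlogN1
      simp at hlogN1
    · exact_mod_cast h0
  -- the index
  have hmem1 : (i, s) ∈ R' N1 := by
    simp only [hR']
    rw [Finset.mem_product, Fintype.mem_piFinset]
    refine ⟨hi, fun j => ?_⟩
    rw [Finset.mem_Icc]
    exact ⟨(hs j).1, Nat.le_floor ((hs j).2.trans k3)⟩
  have hmem2 : (i, s) ∈ R' N2 := hmono hN12 hmem1
  have hs' : (fun j => max 1 (s j)) = s := by
    funext j
    exact max_eq_right (hs j).1
  have g1 := k1 (i, s) hmem1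
  have g2 := k2 (i, s) hmem2
  simp only [hs'] at g1 g2
  obtain ⟨a, ha⟩ : ∃ a : ℕ → ℂ, a = fun n => if n ∈ A i then 1 else 0 := ⟨_, rfl⟩
  have g1' : ‖∑ n ∈ Icc 1 N1, a n * Dq s α n‖ ≤ N1 / Real.log N1 ^ (K + 1) := by
    rw [ha]
    exact g1
  have g2' : ‖∑ n ∈ Icc 1 N2, a n * Dq s α n‖ ≤ N2 / Real.log N2 ^ (K + 1) := by
    rw [ha]
    exact g2
  have esplit : ∑ n ∈ Ioc N1 N2, a n * Dq s α n = ∑ n ∈ Icc 1 N2, a n * Dq s α n - ∑ n ∈ Icc 1 N1, a n * Dq s α n := by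
    have e2 : Icc 1 N2 = Icc 1 N1 ∪ Ioc N1 N2 := by
      ext m
      rw [Finset.mem_union, Finset.mem_Icc, Finset.mem_Icc, Finset.mem_Ioc]
      omega
    rw [e2, Finset.sum_union (by
      rw [Finset.disjoint_left]
      intro m h1 h2
      rw [Finset.mem_Icc] at h1
      rw [Finset.mem_Ioc] at h2
      omega)]
    ring
  have hsmall : ‖∑ n ∈ Ioc N1 N2, a n * Dq s α n‖ ≤ x / Real.log x ^ K := by
    rw [esplit]
    refine (norm_sub_le _ _).trans ((add_le_add g2' g1').trans ?_)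
    have hL0 : 0 < Real.log x := by linarith
    have b1 : Real.log N1 ≤ Real.log N2 := Real.log_le_log hN1pos (by exact_mod_cast hN12)
    have b2 : (N1 : ℝ) / Real.log N1 ^ (K + 1) ≤ x / (Real.log x / 2) ^ (K + 1) :=
      div_le_div₀ hx0.le hN1x (by positivity) (pow_le_pow_left₀ (by positivity) k4 _)
    have b3 : (N2 : ℝ) / Real.log N2 ^ (K + 1) ≤ 2 * x / (Real.log x / 2) ^ (K + 1) :=
      div_le_div₀ (by linarith) hN2x (by positivity) (pow_le_pow_left₀ (by positivity) (k4.trans b1) _)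
    have b4 : 2 * x / (Real.log x / 2) ^ (K + 1) + x / (Real.log x / 2) ^ (K + 1) =
        (3 * 2 ^ (K + 1)) * (x / Real.log x ^ (K + 1)) := by
      rw [div_pow]
      field_simp
      ring
    have b5 : x / Real.log x ^ K = Real.log x * (x / Real.log x ^ (K + 1)) := by
      rw [pow_succ]
      field_simp
    rw [b5]
    have b6 : (3 * 2 ^ (K + 1)) * (x / Real.log x ^ (K + 1)) ≤ Real.log x * (x / Real.log x ^ (K + 1)) :=
      mul_le_mul_of_nonneg_right k6 (by positivity)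
    linarith
  -- the counts
  obtain ⟨W, hW⟩ : ∃ W : ℝ, W = ((({q : ℕ | x ≤ q ∧ (q : ℝ) < 2 * x ∧ (q ∈ A i ∧
    ∀ j, (⌊α j * s j * q⌋₊ + 1).Prime)}).ncard : ℕ) : ℝ) := ⟨_, rfl⟩
  obtain ⟨V, hV⟩ : ∃ V : ℝ, V = ((({q : ℕ | x ≤ q ∧ (q : ℝ) < 2 * x ∧ q ∈ A i}).ncard : ℕ) : ℝ) := ⟨_, rfl⟩
  rw [← hW, ← hV]
  rw [hcount] at hW hV
  obtain ⟨G, hG⟩ : ∃ G : ℝ, G = ∑ q ∈ Ioc N1 N2, (if q ∈ A i then (1 : ℝ) else 0) *
    ∏ j, gd (α j * (s j : ℝ) * (q : ℝ)) := ⟨_, rfl⟩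
  have e1 : ∑ n ∈ Ioc N1 N2, a n * Dq s α n = ((W - G : ℝ) : ℂ) := by
    rw [hW, hG, ← Finset.sum_sub_distrib, Complex.ofReal_sum]
    refine Finset.sum_congr rfl fun n _ => ?_
    have han : a n = if n ∈ A i then 1 else 0 := by rw [ha]
    rw [han]
    unfold Dq
    rw [prod_ip]
    by_cases h1 : n ∈ A i
    · by_cases h2 : ∀ j, (⌊α j * (s j : ℝ) * (n : ℝ)⌋₊ + 1).Prime
      · rw [if_pos h1, if_pos h2, if_pos ⟨h1, h2⟩, if_pos h1]
        push_cast
        ring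
      · rw [if_pos h1, if_neg h2, if_neg (fun h => h2 h.2), if_pos h1]
        push_cast
        ring
    · simp only [h1, false_and, if_false, zero_mul, sub_zero, Complex.ofReal_zero]
  have e2 : |W - G| ≤ x / Real.log x ^ K := by
    rw [e1, Complex.norm_real, Real.norm_eq_abs] at hsmall
    exact hsmall
  have e3 : |G - V / Real.log x ^ l| ≤ ε * (V / Real.log x ^ l) := by
    rw [hG, hV, Finset.sum_div, ← Finset.sum_sub_distrib, Finset.mul_sum]
    refine (Finset.abs_sum_le_sum_abs _ _).trans (Finset.sum_le_sum fun q hq => ?_)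
    have hq' := (hmemx q).1 hq
    have h1 := k5 s hs q hq'.1 hq'.2
    split_ifs with h2
    · rw [one_mul]
      refine h1.trans (le_of_eq ?_)
      ring
    · simp
  calc |W - V / Real.log x ^ l| = |(W - G) + (G - V / Real.log x ^ l)| := by ring_nf
    _ ≤ |W - G| + |G - V / Real.log x ^ l| := abs_add_le _ _
    _ ≤ x / Real.log x ^ K + ε * (V / Real.log x ^ l) := add_le_add e2 e3
    _ = _ := add_comm _ _

end Pool.Agent.D0H76.UG
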