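import Mathlib
import Pool.Agent.W218.MU.Class
import Pool.Agent.D0H76.UG.Main

/-! Uniform generic dilations: one genuine form. -/

set_option autoImplicit false

namespace Pool.Agent.D0H76.UG

open Finset Filter Topology
open Pool.Agent.H387R2

theorem near_two {ε : ℝ} (hε : 0 < ε) : ∃ δ : ℝ, 0 < δ ∧ δ ≤ 1 / 2 ∧
    2 * (1 + δ) ^ 2 / (1 - δ) - (1 - δ) ^ 2 / (1 + δ) ≤ 1 + ε ∧
    1 - ε ≤ 2 * (1 - δ) ^ 2 / (1 + δ) - (1 + δ) ^ 2 / (1 - δ) := by
  have h1 : ContinuousAt (fun t : ℝ => 2 * (1 + t) ^ 2 / (1 - t) - (1 - t) ^ 2 / (1 + t)) 0 := by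
    apply ContinuousAt.sub
    · apply ContinuousAt.div (by fun_prop) (by fun_prop) (by norm_num)
    · apply ContinuousAt.div (by fun_prop) (by fun_prop) (by norm_num)
  have h2 : ContinuousAt (fun t : ℝ => 2 * (1 - t) ^ 2 / (1 + t) - (1 + t) ^ 2 / (1 - t)) 0 := by
    apply ContinuousAt.sub
    · apply ContinuousAt.div (by fun_prop) (by fun_prop) (by norm_num)
    · apply ContinuousAt.div (by fun_prop) (by fun_prop) (by norm_num)
  rw [Metric.continuousAt_iff] at h1 h2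
  obtain ⟨δ1, h3, h4⟩ := h1 ε hε
  obtain ⟨δ2, h5, h6⟩ := h2 ε hε
  obtain ⟨δ, hδ⟩ : ∃ δ, δ = min (min (δ1 / 2) (δ2 / 2)) (1 / 2) := ⟨_, rfl⟩
  have a0 : 0 < δ := by
    rw [hδ]
    positivity
  have a1 : δ ≤ δ1 / 2 := by
    rw [hδ]
    exact (min_le_left _ _).trans (min_le_left _ _)
  have a2 : δ ≤ δ2 / 2 := by
    rw [hδ]
    exact (min_le_left _ _).trans (min_le_right _ _)
  have a3 : δ ≤ 1 / 2 := by
    rw [hδ]
    exact min_le_right _ _
  refine ⟨δ, a0, a3, ?_, ?_⟩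
  · have b := h4 (x := δ) (by
      rw [Real.dist_eq, sub_zero, abs_of_pos a0]
      linarith)
    rw [Real.dist_eq] at b
    have b2 := (abs_lt.1 b).2
    norm_num at b2 ⊢
    linarith
  · have b := h6 (x := δ) (by
      rw [Real.dist_eq, sub_zero, abs_of_pos a0]
      linarith)
    rw [Real.dist_eq] at b
    have b2 := (abs_lt.1 b).1
    norm_num at b2 ⊢
    linarith

theorem pi_ev {δ : ℝ} (hδ : 0 < δ) : ∀ᶠ y : ℕ in atTop,
    (1 - δ) * (y / Real.log y) ≤ H343E.pi1 y ∧ H343E.pi1 y ≤ (1 + δ) * (y / Real.log y) := by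
  have h := Pool.Agent.Helper507.PNT.pi_tendsto.comp (tendsto_natCast_atTop_atTop (R := ℝ))
  have h1 := h.eventually (gt_mem_nhds (show 1 < 1 + δ by linarith))
  have h2 := h.eventually (lt_mem_nhds (show 1 - δ < 1 by linarith))
  filter_upwards [h1, h2, eventually_ge_atTop 3] with x hx hx' hx3
  simp only [Function.comp, Nat.floor_natCast] at hx hx'
  have hx0 : (0:ℝ) < x := by positivity
  have hL : 0 < Real.log x := Real.log_pos (by exact_mod_cast (by omega : 1 < x))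
  rw [div_lt_iff₀ hx0] at hx
  rw [lt_div_iff₀ hx0] at hx'
  rw [Uni.pi1_eq, mul_div_assoc', mul_div_assoc', le_div_iff₀ hL, div_le_iff₀ hL]
  constructor <;> linarith

theorem count_r (N1 N2 r : ℕ) (hr : 1 ≤ r) (h12 : N1 ≤ N2) :
    (((Ioc N1 N2).filter (fun q => (q * r + 1).Prime)).card : ℝ) =
      H343E.piAP (N2 * r + 1) r (1 % r) - H343E.piAP (N1 * r + 1) r (1 % r) := by
  classical
  have hle : N1 * r + 1 ≤ N2 * r + 1 := by
    have := Nat.mul_le_mul_right r h12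
    omega
  have e1 : (Icc 1 (N2 * r + 1)).filter (fun p => p.Prime ∧ p ≡ 1 % r [MOD r]) =
      (Icc 1 (N1 * r + 1)).filter (fun p => p.Prime ∧ p ≡ 1 % r [MOD r]) ∪
        (Ioc (N1 * r + 1) (N2 * r + 1)).filter (fun p => p.Prime ∧ p ≡ 1 % r [MOD r]) := by
    rw [← Finset.filter_union]
    congr 1
    ext m
    rw [Finset.mem_union, Finset.mem_Icc, Finset.mem_Icc, Finset.mem_Ioc]
    omega
  have e2 : Disjoint ((Icc 1 (N1 * r + 1)).filter (fun p => p.Prime ∧ p ≡ 1 % r [MOD r]))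
      ((Ioc (N1 * r + 1) (N2 * r + 1)).filter (fun p => p.Prime ∧ p ≡ 1 % r [MOD r])) := by
    apply Finset.disjoint_filter_filter
    rw [Finset.disjoint_left]
    intro m h1 h2
    rw [Finset.mem_Icc] at h1
    rw [Finset.mem_Ioc] at h2
    omega
  have e3 : ((Ioc N1 N2).filter (fun q => (q * r + 1).Prime)).card =
      ((Ioc (N1 * r + 1) (N2 * r + 1)).filter (fun p => p.Prime ∧ p ≡ 1 % r [MOD r])).card := by
    refine Finset.card_nbij' (fun q => q * r + 1) (fun p => (p - 1) / r) ?_ ?_ ?_ ?_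
    · intro q hq
      rw [Finset.mem_coe, Finset.mem_filter, Finset.mem_Ioc] at hq
      rw [Finset.mem_coe, Finset.mem_filter, Finset.mem_Ioc]
      beta_reduce
      refine ⟨⟨?_, ?_⟩, hq.2, ?_⟩
      · have := Nat.mul_lt_mul_of_pos_right hq.1.1 (show 0 < r by omega)
        omega
      · have := Nat.mul_le_mul_right r hq.1.2
        omega
      · have h1 : q * r + 1 ≡ 1 [MOD r] := by
          have h2 : q * r ≡ 0 [MOD r] := (Nat.modEq_zero_iff_dvd).2 (dvd_mul_left r q)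
          simp
        exact h1.trans (Nat.mod_modEq 1 r).symm
    · intro p hp
      rw [Finset.mem_coe, Finset.mem_filter, Finset.mem_Ioc] at hp
      rw [Finset.mem_coe, Finset.mem_filter, Finset.mem_Ioc]
      obtain ⟨⟨h1, h2⟩, h3, h4⟩ := hp
      have h5 : p ≡ 1 [MOD r] := h4.trans (Nat.mod_modEq 1 r)
      have h6 : r ∣ p - 1 := (Nat.modEq_iff_dvd' h3.one_lt.le).1 h5.symm
      obtain ⟨m, hm⟩ := h6
      have h7 : p = m * r + 1 := by
        have := h3.one_lt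
        rw [mul_comm] at hm
        omega
      subst h7
      have h8 : (m * r + 1 - 1) / r = m := by
        rw [Nat.add_sub_cancel]
        exact Nat.mul_div_cancel _ (by omega)
      beta_reduce
      rw [h8]
      refine ⟨⟨?_, ?_⟩, h3⟩
      · exact Nat.lt_of_mul_lt_mul_right (a := r) (by omega)
      · exact Nat.le_of_mul_le_mul_right (c := r) (by omega) (by omega)
    · intro q _
      change (q * r + 1 - 1) / r = q
      rw [Nat.add_sub_cancel]
      exact Nat.mul_div_cancel _ (by omega)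
    · intro p hp
      rw [Finset.mem_coe, Finset.mem_filter, Finset.mem_Ioc] at hp
      obtain ⟨⟨h1, h2⟩, h3, h4⟩ := hp
      have h5 : p ≡ 1 [MOD r] := h4.trans (Nat.mod_modEq 1 r)
      have h6 : r ∣ p - 1 := (Nat.modEq_iff_dvd' h3.one_lt.le).1 h5.symm
      change (p - 1) / r * r + 1 = p
      rw [Nat.div_mul_cancel h6]
      have := h3.one_lt
      omega
  unfold H343E.piAP
  rw [e1, Finset.card_union_of_disjoint e2, e3]
  push_cast
  ring

theorem aux1 {x : ℝ} {N r B : ℕ} {t δ : ℝ} (ht1 : 1 ≤ t) (ht2 : t ≤ 2) (hδ0 : 0 < δ) (hδ1 : δ ≤ 1 / 2)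
    (hx : 1 ≤ δ * x) (hN1 : t * x - 1 ≤ N) (hN2 : (N : ℝ) ≤ t * x) (hr : 1 ≤ r)
    (hrB : (r : ℝ) ≤ Real.log x ^ B) (h3 : 3 * Real.log x ^ B ≤ x ^ δ) :
    (1 - δ) * (t * x * r) ≤ ((N * r + 1 : ℕ) : ℝ) ∧ ((N * r + 1 : ℕ) : ℝ) ≤ (1 + δ) * (t * x * r) ∧
      (1 - δ) * Real.log x ≤ Real.log ((N * r + 1 : ℕ) : ℝ) ∧
      Real.log ((N * r + 1 : ℕ) : ℝ) ≤ (1 + δ) * Real.log x := by
  have hx0 : 0 < x := by
    by_contra h
    push Not at h
    nlinarith
  have hr1 : (1 : ℝ) ≤ r := by exact_mod_cast hr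
  have hxr : 1 ≤ δ * x * r := by nlinarith
  have a1 : (1 - δ) * (t * x * r) ≤ ((N * r + 1 : ℕ) : ℝ) := by
    push_cast
    have h1 : (t * x - 1) * r ≤ N * r := mul_le_mul_of_nonneg_right hN1 (by linarith)
    have h2 : r ≤ δ * x * r := by nlinarith
    have h4 : δ * x * r ≤ δ * (t * x * r) := by
      have : 0 ≤ δ * x * r := by positivity
      nlinarith
    nlinarith
  have a2 : ((N * r + 1 : ℕ) : ℝ) ≤ (1 + δ) * (t * x * r) := by
    push_cast
    have h1 : N * r ≤ t * x * r := mul_le_mul_of_nonneg_right hN2 (by linarith)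
    have h4 : δ * x * r ≤ δ * (t * x * r) := by
      have : 0 ≤ δ * x * r := by positivity
      nlinarith
    nlinarith
  have hLB : 1 ≤ Real.log x ^ B := hr1.trans hrB
  have hxd : 0 < x ^ δ := Real.rpow_pos_of_pos hx0 _
  refine ⟨a1, a2, ?_, ?_⟩
  · have h1 : x ^ (1 - δ) ≤ ((N * r + 1 : ℕ) : ℝ) := by
      refine le_trans ?_ a1
      rw [Real.rpow_sub hx0, Real.rpow_one, div_le_iff₀ hxd]
      have h2 : x / 2 ≤ (1 - δ) * (t * x * r) := by
        have h5 : x ≤ t * x * r := by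
          have : 1 * x ≤ t * x := mul_le_mul_of_nonneg_right ht1 hx0.le
          nlinarith
        nlinarith
      have h6 : 2 ≤ x ^ δ := by linarith
      calc x = x / 2 * 2 := by ring
        _ ≤ (1 - δ) * (t * x * r) * x ^ δ := mul_le_mul h2 h6 (by norm_num) (by linarith)
    have h2 := Real.log_le_log (Real.rpow_pos_of_pos hx0 _) h1
    rwa [Real.log_rpow hx0] at h2
  · have h1 : ((N * r + 1 : ℕ) : ℝ) ≤ x ^ (1 + δ) := by
      refine a2.trans ?_
      rw [Real.rpow_add hx0, Real.rpow_one]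
      calc (1 + δ) * (t * x * r) ≤ (3 / 2) * (2 * x * Real.log x ^ B) := by
            apply mul_le_mul (by linarith) _ (by positivity) (by norm_num)
            apply mul_le_mul _ hrB (by linarith) (by positivity)
            exact mul_le_mul_of_nonneg_right ht2 hx0.le
        _ = x * (3 * Real.log x ^ B) := by ring
        _ ≤ x * x ^ δ := mul_le_mul_of_nonneg_left h3 hx0.le
    have h2 := Real.log_le_log (by positivity) h1
    rwa [Real.log_rpow hx0] at h2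

/-- bounds for `π` at the end points -/
theorem aux2 {x : ℝ} {y : ℕ} {r t δ : ℝ} (hδ0 : 0 < δ) (hδ1 : δ ≤ 1 / 2) (ht : 0 < t) (hr : 0 < r) (hx : 0 < x)
    (hL : 0 < Real.log x)
    (h1 : (1 - δ) * (t * x * r) ≤ (y : ℝ)) (h2 : (y : ℝ) ≤ (1 + δ) * (t * x * r))
    (h3 : (1 - δ) * Real.log x ≤ Real.log y) (h4 : Real.log y ≤ (1 + δ) * Real.log x)
    (h5 : (1 - δ) * (y / Real.log y) ≤ H343E.pi1 y ∧ H343E.pi1 y ≤ (1 + δ) * (y / Real.log y)) :
    t * ((1 - δ) ^ 2 / (1 + δ)) * (x * r / Real.log x) ≤ H343E.pi1 y ∧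
      H343E.pi1 y ≤ t * ((1 + δ) ^ 2 / (1 - δ)) * (x * r / Real.log x) := by
  have hd : 0 < 1 - δ := by linarith
  have hl : 0 < Real.log (y : ℝ) := lt_of_lt_of_le (by positivity) h3
  constructor
  · refine le_trans ?_ h5.1
    have e : t * ((1 - δ) ^ 2 / (1 + δ)) * (x * r / Real.log x) =
        (1 - δ) * ((1 - δ) * (t * x * r) / ((1 + δ) * Real.log x)) := by
      field_simp
    rw [e]
    apply mul_le_mul_of_nonneg_left _ hd.le
    exact div_le_div₀ (by positivity) h1 hl h4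
  · refine h5.2.trans ?_
    have e : t * ((1 + δ) ^ 2 / (1 - δ)) * (x * r / Real.log x) =
        (1 + δ) * ((1 + δ) * (t * x * r) / ((1 - δ) * Real.log x)) := by
      field_simp
    rw [e]
    apply mul_le_mul_of_nonneg_left _ (by linarith)
    exact div_le_div₀ (by positivity) h2 (by positivity) h3

open Classical in
/-- **one genuine form, uniformly** -/
theorem one_form (B : ℕ) {ε : ℝ} (hε : 0 < ε) : ∀ᶠ x : ℝ in atTop, ∀ r : ℕ, 1 ≤ r → (r : ℝ) ≤ Real.log x ^ B →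
    |((({q : ℕ | x ≤ q ∧ (q : ℝ) < 2 * x ∧ (q * r + 1).Prime}).ncard : ℕ) : ℝ) -
      (r : ℝ) / Nat.totient r * (x / Real.log x)| ≤ ε * ((r : ℝ) / Nat.totient r * (x / Real.log x)) := by
  obtain ⟨δ, hδ0, hδ1, hδ2, hδ3⟩ := near_two (half_pos hε)
  obtain ⟨Y1, hY1⟩ := (pi_ev hδ0).exists_forall_of_atTop
  obtain ⟨Y2, hY2⟩ := Pool.Agent.W218.MU.sw (B + 1) (B + 2)
  filter_upwards [n1_tendsto.eventually_ge_atTop (max Y1 Y2), ev_pow B, ev_n1, ev_logR B 3 δ hδ0,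
    ev_logx (12 * 2 ^ (B + 2) / ε), ev_logx 1, eventually_ge_atTop (1 / δ), eventually_ge_atTop 2] with
    x g1 g2 g3 g4 g5 g6 g7 g8 r hr hrB
  obtain ⟨N1, hN1⟩ : ∃ N1 : ℕ, N1 = ⌈x⌉₊ - 1 := ⟨_, rfl⟩
  obtain ⟨N2, hN2⟩ : ∃ N2 : ℕ, N2 = ⌈2 * x⌉₊ - 1 := ⟨_, rfl⟩
  have hx0 : 0 < x := by linarith
  have hx1 : 1 ≤ x := by linarith
  have hL0 : 0 < Real.log x := by linarith
  have hr1 : (1 : ℝ) ≤ r := by exact_mod_cast hr
  have hN12 : N1 ≤ N2 := by
    rw [hN1, hN2]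
    have : ⌈x⌉₊ ≤ ⌈2 * x⌉₊ := Nat.ceil_mono (by linarith)
    omega
  have hN1x : (N1 : ℝ) ≤ 1 * x ∧ 1 * x - 1 ≤ N1 := by
    have h1 : (⌈x⌉₊ : ℝ) < x + 1 := Nat.ceil_lt_add_one hx0.le
    have h2 : x ≤ (⌈x⌉₊ : ℝ) := Nat.le_ceil x
    have h3 : 1 ≤ ⌈x⌉₊ := Nat.one_le_ceil_iff.2 hx0
    rw [hN1, Nat.cast_sub h3]
    push_cast
    constructor <;> linarith
  have hN2x : (N2 : ℝ) ≤ 2 * x ∧ 2 * x - 1 ≤ N2 := by
    have h1 : (⌈2 * x⌉₊ : ℝ) < 2 * x + 1 := Nat.ceil_lt_add_one (by linarith)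
    have h2 : 2 * x ≤ (⌈2 * x⌉₊ : ℝ) := Nat.le_ceil _
    have h3 : 1 ≤ ⌈2 * x⌉₊ := Nat.one_le_ceil_iff.2 (by linarith)
    rw [hN2, Nat.cast_sub h3]
    push_cast
    constructor <;> linarith
  have hcount := count_eq hx1 (fun q => (q * r + 1).Prime)
  simp only [← hN1, ← hN2] at g1 g2 g3 hcount
  have hδx : 1 ≤ δ * x := by
    rw [div_le_iff₀ hδ0] at g7
    linarith
  obtain ⟨b1, b2, b3, b4⟩ := aux1 (B := B) le_rfl (by norm_num) hδ0 hδ1 hδx hN1x.2 hN1x.1 hr hrB g4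
  obtain ⟨c1, c2, c3, c4⟩ := aux1 (B := B) (by norm_num : (1:ℝ) ≤ 2) le_rfl hδ0 hδ1 hδx hN2x.2 hN2x.1 hr hrB g4
  -- the end points are large
  have hy1 : N1 ≤ N1 * r + 1 := (Nat.le_mul_of_pos_right N1 (by omega)).trans (Nat.le_succ _)
  have hy2 : N1 ≤ N2 * r + 1 := hN12.trans ((Nat.le_mul_of_pos_right N2 (by omega)).trans (Nat.le_succ _))
  have hlogN1 : 0 < Real.log (N1 : ℝ) := by linarith
  have hN1pos : (0 : ℝ) < N1 := by
    rcases Nat.eq_zero_or_pos N1 with h0 | h0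
    · rw [h0] at hlogN1
      simp at hlogN1
    · exact_mod_cast h0
  have hq1 : (r : ℝ) ≤ Real.log ((N1 * r + 1 : ℕ) : ℝ) ^ (B + 1) :=
    (hrB.trans g2).trans (pow_le_pow_left₀ hlogN1.le (Real.log_le_log hN1pos (by exact_mod_cast hy1)) _)
  have hq2 : (r : ℝ) ≤ Real.log ((N2 * r + 1 : ℕ) : ℝ) ^ (B + 1) :=
    (hrB.trans g2).trans (pow_le_pow_left₀ hlogN1.le (Real.log_le_log hN1pos (by exact_mod_cast hy2)) _)
  have hmod : 1 % r < r := Nat.mod_lt _ (by omega)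
  have hcop : Nat.Coprime (1 % r) r := by
    rw [Nat.coprime_iff_gcd_eq_one, ← Nat.gcd_rec r 1]
    simp
  have p1 := aux2 hδ0 hδ1 one_pos (by linarith) hx0 hL0 b1 b2 b3 b4
    (hY1 (N1 * r + 1) (((le_max_left _ _).trans g1).trans hy1))
  have p2 := aux2 hδ0 hδ1 two_pos (by linarith) hx0 hL0 c1 c2 c3 c4
    (hY1 (N2 * r + 1) (((le_max_left _ _).trans g1).trans hy2))
  have s1 := hY2 (N1 * r + 1) (((le_max_right _ _).trans g1).trans hy1) r hr hq1 (1 % r) hmod hcop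
  have s2 := hY2 (N2 * r + 1) (((le_max_right _ _).trans g1).trans hy2) r hr hq2 (1 % r) hmod hcop
  -- the errors
  have herr : ∀ y : ℕ, (y : ℝ) ≤ 3 * x * Real.log x ^ B → Real.log x / 2 ≤ Real.log y →
      (y : ℝ) / Real.log y ^ (B + 2) ≤ ε / 4 * (x / Real.log x) := by
    intro y h1 h2
    calc (y : ℝ) / Real.log y ^ (B + 2) ≤ 3 * x * Real.log x ^ B / (Real.log x / 2) ^ (B + 2) :=
          div_le_div₀ (by positivity) h1 (by positivity) (pow_le_pow_left₀ (by positivity) h2 _)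
      _ = (3 * 2 ^ (B + 2) / Real.log x) * (x / Real.log x) := by
          rw [div_pow]
          have e : Real.log x ^ (B + 2) = Real.log x ^ B * Real.log x * Real.log x := by ring
          rw [e]
          field_simp
      _ ≤ ε / 4 * (x / Real.log x) := by
          apply mul_le_mul_of_nonneg_right _ (by positivity)
          rw [div_le_iff₀ hL0]
          rw [div_le_iff₀ hε] at g5
          linarith
  have hdl : ∀ y : ℕ, (1 - δ) * Real.log x ≤ Real.log y → Real.log x / 2 ≤ Real.log y := fun y h => by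
    refine le_trans ?_ h
    nlinarith
  have hyb : ∀ (t : ℝ) (y : ℕ), 1 ≤ t → t ≤ 2 → (y : ℝ) ≤ (1 + δ) * (t * x * r) →
      (y : ℝ) ≤ 3 * x * Real.log x ^ B := by
    intro t y ht1 ht2 h
    refine h.trans ?_
    calc (1 + δ) * (t * x * r) ≤ (3 / 2) * (2 * x * Real.log x ^ B) := by
          apply mul_le_mul (by linarith) _ (by positivity) (by norm_num)
          apply mul_le_mul _ hrB (by linarith) (by positivity)
          exact mul_le_mul_of_nonneg_right ht2 hx0.le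
      _ = _ := by ring
  have s1' := s1.trans (herr _ (hyb 1 _ le_rfl (by norm_num) b2) (hdl _ b3))
  have s2' := s2.trans (herr _ (hyb 2 _ (by norm_num) le_rfl c2) (hdl _ c3))
  -- assembly
  have hcard : ((({q : ℕ | x ≤ q ∧ (q : ℝ) < 2 * x ∧ (q * r + 1).Prime}).ncard : ℕ) : ℝ) =
      H343E.piAP (N2 * r + 1) r (1 % r) - H343E.piAP (N1 * r + 1) r (1 % r) := by
    rw [hcount, ← count_r N1 N2 r hr hN12, Finset.card_filter]
    push_cast
    refine Finset.sum_congr rfl fun q _ => ?_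
    split_ifs <;> rfl
  rw [hcard]
  generalize H343E.piAP (N2 * r + 1) r (1 % r) = P2 at *
  generalize H343E.piAP (N1 * r + 1) r (1 % r) = P1 at *
  generalize H343E.pi1 (N2 * r + 1) = π2 at *
  generalize H343E.pi1 (N1 * r + 1) = π1 at *
  have hφ0 : 0 < (Nat.totient r : ℝ) := by exact_mod_cast Nat.totient_pos.2 (by omega)
  have hφ1 : (Nat.totient r : ℝ) ≤ r := by exact_mod_cast Nat.totient_le r
  obtain ⟨φ, hφ⟩ : ∃ φ : ℝ, φ = (Nat.totient r : ℝ) := ⟨_, rfl⟩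
  rw [← hφ] at hφ0 hφ1 s1' s2' ⊢
  obtain ⟨T, hT⟩ : ∃ T : ℝ, T = x * r / Real.log x := ⟨_, rfl⟩
  have hT0 : 0 < T := by
    rw [hT]
    positivity
  have hxT : x / Real.log x ≤ T / φ := by
    rw [hT, div_div, div_le_div_iff₀ hL0 (by positivity)]
    have : x * Real.log x * φ ≤ x * Real.log x * r := mul_le_mul_of_nonneg_left hφ1 (by positivity)
    linarith
  have eT : (r : ℝ) / φ * (x / Real.log x) = T / φ := by
    rw [hT]
    field_simp
  rw [eT]
  rw [← hT] at p1 p2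
  have u1 : π2 - π1 ≤ (1 + ε / 2) * T := by
    have h1 : (2 * (1 + δ) ^ 2 / (1 - δ) - (1 - δ) ^ 2 / (1 + δ)) * T ≤ (1 + ε / 2) * T :=
      mul_le_mul_of_nonneg_right hδ2 hT0.le
    have h2 : 2 * ((1 + δ) ^ 2 / (1 - δ)) * T - 1 * ((1 - δ) ^ 2 / (1 + δ)) * T =
        (2 * (1 + δ) ^ 2 / (1 - δ) - (1 - δ) ^ 2 / (1 + δ)) * T := by ring
    linarith [p1.1, p2.2]
  have u2 : (1 - ε / 2) * T ≤ π2 - π1 := by
    have h1 : (1 - ε / 2) * T ≤ (2 * (1 - δ) ^ 2 / (1 + δ) - (1 + δ) ^ 2 / (1 - δ)) * T :=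
      mul_le_mul_of_nonneg_right hδ3 hT0.le
    have h2 : 2 * ((1 - δ) ^ 2 / (1 + δ)) * T - 1 * ((1 + δ) ^ 2 / (1 - δ)) * T =
        (2 * (1 - δ) ^ 2 / (1 + δ) - (1 + δ) ^ 2 / (1 - δ)) * T := by ring
    linarith [p1.2, p2.1]
  have u3 : (π2 - π1) / φ ≤ (1 + ε / 2) * (T / φ) := by
    rw [mul_div_assoc']
    exact div_le_div_of_nonneg_right u1 hφ0.le
  have u4 : (1 - ε / 2) * (T / φ) ≤ (π2 - π1) / φ := by
    rw [mul_div_assoc']
    exact div_le_div_of_nonneg_right u2 hφ0.le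
  have u5 : (π2 - π1) / φ = π2 / φ - π1 / φ := sub_div _ _ _
  rw [abs_le] at s1' s2'
  have u6 : ε / 4 * (x / Real.log x) ≤ ε / 4 * (T / φ) := mul_le_mul_of_nonneg_left hxT (by positivity)
  rw [abs_le]
  constructor
  · linarith [s1'.1, s1'.2, s2'.1, s2'.2]
  · linarith [s1'.1, s1'.2, s2'.1, s2'.2]

end Pool.Agent.D0H76.UG
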