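import Mathlib
import Pool.Agent.D0H76.UG.One

/-! Uniform generic dilations: the theorem. -/

set_option autoImplicit false

namespace Pool.Agent.D0H76.UG

open Finset MeasureTheory Filter Topology

theorem floor_mono_log (B : ℕ) {N N' : ℕ} (h : N ≤ N') :
    ⌊Real.log N ^ (B + 1)⌋₊ ≤ ⌊Real.log N' ^ (B + 1)⌋₊ := by
  apply Nat.floor_mono
  rcases Nat.eq_zero_or_pos N with h0 | h0
  · rw [h0]
    simp only [Nat.cast_zero, Real.log_zero]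
    rw [zero_pow (by omega)]
    have := Real.log_natCast_nonneg N'
    positivity
  · exact pow_le_pow_left₀ (Real.log_natCast_nonneg N)
      (Real.log_le_log (by exact_mod_cast h0) (by exact_mod_cast h)) _

/-- sets from a sequence, with `k` genuine forms -/
theorem famA (l B k : ℕ) (A : ℕ → Set ℕ) :
    ∀ᵐ α : Fin l → ℝ, (∀ j, 0 < α j) → ∀ (K : ℕ) (ε : ℝ), 0 < ε → ∀ᶠ x : ℝ in atTop,
      ∀ m : ℕ, (m : ℝ) ≤ Real.log x ^ B → ∀ r : Fin k → ℕ, (∀ i, 1 ≤ r i ∧ (r i : ℝ) ≤ Real.log x ^ B) →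
      ∀ s : Fin l → ℕ, (∀ j, 1 ≤ s j ∧ (s j : ℝ) ≤ Real.log x ^ B) →
      |((({q : ℕ | x ≤ q ∧ (q : ℝ) < 2 * x ∧ ((q ∈ A m ∧ ∀ i, (q * r i + 1).Prime) ∧
          ∀ j, (⌊α j * s j * q⌋₊ + 1).Prime)}).ncard : ℕ) : ℝ) -
        (({q : ℕ | x ≤ q ∧ (q : ℝ) < 2 * x ∧ (q ∈ A m ∧ ∀ i, (q * r i + 1).Prime)}).ncard : ℕ) / Real.log x ^ l| ≤
        ε * ((({q : ℕ | x ≤ q ∧ (q : ℝ) < 2 * x ∧ (q ∈ A m ∧ ∀ i, (q * r i + 1).Prime)}).ncard : ℕ) /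
          Real.log x ^ l) + x / Real.log x ^ K := by
  classical
  set R : ℕ → Finset (ℕ × (Fin k → ℕ)) := fun N =>
    Finset.range (⌊Real.log N ^ (B + 1)⌋₊ + 1) ×ˢ Fintype.piFinset (fun _ => Icc 1 ⌊Real.log N ^ (B + 1)⌋₊) with hR
  have hmono : Monotone R := by
    intro N N' h
    simp only [hR]
    apply Finset.product_subset_product
    · apply Finset.range_subset_range.2
      have := floor_mono_log B h
      omega
    · apply Fintype.piFinset_subset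
      intro _
      exact Finset.Icc_subset_Icc_right (floor_mono_log B h)
  have hcard : ∀ᶠ N : ℕ in atTop, ((R N).card : ℝ) ≤ Real.log N ^ (B + 2 + (B + 1) * k) := by
    filter_upwards [Pool.Agent.D0H91.MG.ev_logge 2] with N hN
    have hL := Real.log_natCast_nonneg N
    simp only [hR]
    rw [Finset.card_product, Fintype.card_piFinset, Finset.card_range]
    have e : Real.log (N : ℝ) ^ (B + 2 + (B + 1) * k) =
        Real.log N ^ (B + 2) * (Real.log N ^ (B + 1)) ^ k := by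
      rw [pow_add, pow_mul]
    rw [e, Finset.prod_const, Finset.card_univ, Fintype.card_fin, Nat.card_Icc, Nat.add_sub_cancel]
    push_cast
    have h1 : ((⌊Real.log N ^ (B + 1)⌋₊ : ℕ) : ℝ) ≤ Real.log N ^ (B + 1) := Nat.floor_le (by positivity)
    refine mul_le_mul ?_ (pow_le_pow_left₀ (by positivity) h1 _) (by positivity) (by positivity)
    have h2 : 1 ≤ Real.log (N : ℝ) ^ (B + 1) := one_le_pow₀ (by linarith)
    calc ((⌊Real.log N ^ (B + 1)⌋₊ : ℕ) : ℝ) + 1 ≤ Real.log N ^ (B + 1) * 2 := by linarith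
      _ ≤ Real.log N ^ (B + 1) * Real.log N := mul_le_mul_of_nonneg_left hN (by positivity)
      _ = Real.log N ^ (B + 2) := by rw [← pow_succ]
  filter_upwards [core R hmono (B + 2 + (B + 1) * k) B hcard l
    (fun p => {q | q ∈ A p.1 ∧ ∀ i, (q * p.2 i + 1).Prime})] with α hα hpos K ε hε
  filter_upwards [hα hpos K ε hε, ev_pow B] with x h1 h2 m hm r hr s hs
  refine h1 (m, r) ?_ s hs
  simp only [hR]
  rw [Finset.mem_product, Fintype.mem_piFinset, Finset.mem_range]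
  refine ⟨Nat.lt_succ_of_le (Nat.le_floor (hm.trans h2)), fun i => ?_⟩
  rw [Finset.mem_Icc]
  exact ⟨(hr i).1, Nat.le_floor ((hr i).2.trans h2)⟩

theorem all_count {x : ℝ} (hx : 1 ≤ x) (P : ℕ → Prop) (hP : ∀ q, P q) :
    |((({q : ℕ | x ≤ q ∧ (q : ℝ) < 2 * x ∧ P q}).ncard : ℕ) : ℝ) - x| ≤ 1 := by
  classical
  rw [count_eq hx P, Finset.sum_congr rfl fun q _ => if_pos (hP q), Finset.sum_const, Nat.card_Ioc, nsmul_eq_mul,
    mul_one]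
  have h1 : (⌈x⌉₊ : ℝ) < x + 1 := Nat.ceil_lt_add_one (by linarith)
  have h2 : x ≤ (⌈x⌉₊ : ℝ) := Nat.le_ceil x
  have h3 : (⌈2 * x⌉₊ : ℝ) < 2 * x + 1 := Nat.ceil_lt_add_one (by linarith)
  have h4 : 2 * x ≤ (⌈2 * x⌉₊ : ℝ) := Nat.le_ceil _
  have h5 : 1 ≤ ⌈x⌉₊ := Nat.one_le_ceil_iff.2 (by linarith)
  have h6 : ⌈x⌉₊ ≤ ⌈2 * x⌉₊ := Nat.ceil_mono (by linarith)
  have e : (⌈2 * x⌉₊ - 1 - (⌈x⌉₊ - 1) : ℕ) = ⌈2 * x⌉₊ - ⌈x⌉₊ := by omega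
  rw [e, Nat.cast_sub h6, abs_le]
  constructor <;> linarith

/-- the final arithmetic for the integers -/
theorem fin0 {N M x L ε : ℝ} {l : ℕ} (hx : 8 / ε ≤ x) (hx1 : 1 ≤ x) (hL : 8 / ε ≤ L) (hL0 : 0 < L) (hε : 0 < ε)
    (h1 : |N - M / L ^ l| ≤ ε / 4 * (M / L ^ l) + x / L ^ (l + 1)) (h2 : |M - x| ≤ 1) :
    |N - x / L ^ l| ≤ ε * (x / L ^ l) := by
  have hp : 0 < L ^ l := by positivity
  have hx0 : 0 < x := by linarith
  rw [abs_le] at h2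
  obtain ⟨u, hu⟩ : ∃ u, u = x / L ^ l := ⟨_, rfl⟩
  obtain ⟨v, hv⟩ : ∃ v, v = M / L ^ l := ⟨_, rfl⟩
  have hu0 : 0 < u := by
    rw [hu]
    positivity
  have a1 : x / L ^ (l + 1) ≤ ε / 8 * u := by
    rw [hu, pow_succ, div_le_iff₀ (by positivity)]
    have e : ε / 8 * (x / L ^ l) * (L ^ l * L) = (ε / 8 * L) * x := by field_simp
    rw [e]
    rw [div_le_iff₀ hε] at hL
    have : 1 ≤ ε / 8 * L := by linarith
    nlinarith
  have a2 : 1 / L ^ l ≤ ε / 8 * u := by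
    rw [hu, mul_div_assoc']
    apply div_le_div_of_nonneg_right _ hp.le
    rw [div_le_iff₀ hε] at hx
    linarith
  have a3 : v ≤ u + 1 / L ^ l := by
    rw [hu, hv, ← add_div]
    apply div_le_div_of_nonneg_right _ hp.le
    linarith
  have a4 : u - 1 / L ^ l ≤ v := by
    rw [hu, hv, ← sub_div]
    apply div_le_div_of_nonneg_right _ hp.le
    linarith
  have a5 : 1 / L ^ l ≤ u := by
    rw [hu]
    exact div_le_div_of_nonneg_right hx1 hp.le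
  rw [← hv] at h1
  rw [← hu]
  have a6 : ε / 4 * v ≤ ε / 4 * (2 * u) := mul_le_mul_of_nonneg_left (by linarith) (by positivity)
  rw [abs_le] at h1 ⊢
  constructor <;> linarith [h1.1, h1.2]

/-- the final arithmetic for one genuine form -/
theorem fin1 {N M x L ε T : ℝ} {l : ℕ} (hx0 : 0 < x) (hL : 4 / ε ≤ L) (hL0 : 0 < L) (hε : 0 < ε) (hε1 : ε ≤ 1)
    (hT : 1 ≤ T) (h1 : |N - M / L ^ l| ≤ ε / 4 * (M / L ^ l) + x / L ^ (l + 2))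
    (h2 : |M - T * (x / L)| ≤ ε / 4 * (T * (x / L))) :
    |N - T * (x / L ^ (l + 1))| ≤ ε * (T * (x / L ^ (l + 1))) := by
  have hp : 0 < L ^ l := by positivity
  obtain ⟨u, hu⟩ : ∃ u, u = T * (x / L ^ (l + 1)) := ⟨_, rfl⟩
  obtain ⟨v, hv⟩ : ∃ v, v = M / L ^ l := ⟨_, rfl⟩
  have hT0 : 0 < T := by linarith
  have hu0 : 0 < u := by
    rw [hu]
    positivity
  have a1 : x / L ^ (l + 2) ≤ ε / 4 * u := by
    have e0 : x / L ^ (l + 2) = (1 / L) * (x / L ^ (l + 1)) := by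
      rw [pow_succ L (l + 1)]
      field_simp
    have e1 : 1 / L ≤ ε / 4 := by
      rw [div_le_iff₀ hL0]
      rw [div_le_iff₀ hε] at hL
      linarith
    have e2 : x / L ^ (l + 1) ≤ u := by
      rw [hu]
      exact le_mul_of_one_le_left (by positivity) hT
    rw [e0]
    exact mul_le_mul e1 e2 (by positivity) (by positivity)
  have a2 : T * (x / L) / L ^ l = u := by
    rw [hu, pow_succ]
    field_simp
  have a3 : |v - u| ≤ ε / 4 * u := by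
    have e1 : |v - u| = |M - T * (x / L)| / L ^ l := by
      rw [← a2, hv, ← sub_div, abs_div, abs_of_pos hp]
    have e2 : ε / 4 * u = ε / 4 * (T * (x / L)) / L ^ l := by
      rw [← a2]
      ring
    rw [e1, e2]
    exact div_le_div_of_nonneg_right h2 hp.le
  rw [← hv] at h1
  rw [← hu]
  rw [abs_le] at h1 a3 ⊢
  have a4 : v ≤ 2 * u := by nlinarith [a3.2]
  have a5 : ε / 4 * v ≤ ε / 4 * (2 * u) := mul_le_mul_of_nonneg_left a4 (by positivity)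
  constructor <;> linarith [h1.1, h1.2, a3.1, a3.2]

/-- **the theorem** -/
theorem final (l : ℕ) (A : ℕ → Set ℕ) : ∀ᵐ α : Fin l → ℝ, (∀ j, 0 < α j) → ∀ (B K : ℕ) (ε : ℝ), 0 < ε →
    ∃ X : ℝ, ∀ x : ℝ, X ≤ x → ∀ s : Fin l → ℕ, (∀ j, 1 ≤ s j ∧ (s j : ℝ) ≤ Real.log x ^ B) →
      (∀ m k : ℕ, (m : ℝ) ≤ Real.log x ^ B → k ≤ B →
        ∀ r : Fin k → ℕ, (∀ i, 1 ≤ r i ∧ (r i : ℝ) ≤ Real.log x ^ B) →
        |((({q : ℕ | x ≤ q ∧ (q : ℝ) < 2 * x ∧ ((q ∈ A m ∧ ∀ i, (q * r i + 1).Prime) ∧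
            ∀ j, (⌊α j * s j * q⌋₊ + 1).Prime)}).ncard : ℕ) : ℝ) -
          (({q : ℕ | x ≤ q ∧ (q : ℝ) < 2 * x ∧ (q ∈ A m ∧ ∀ i, (q * r i + 1).Prime)}).ncard : ℕ) /
            Real.log x ^ l| ≤
          ε * ((({q : ℕ | x ≤ q ∧ (q : ℝ) < 2 * x ∧ (q ∈ A m ∧ ∀ i, (q * r i + 1).Prime)}).ncard : ℕ) /
            Real.log x ^ l) + x / Real.log x ^ K) ∧
      |((({q : ℕ | x ≤ q ∧ (q : ℝ) < 2 * x ∧ ∀ j, (⌊α j * s j * q⌋₊ + 1).Prime}).ncard : ℕ) : ℝ) -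
        x / Real.log x ^ l| ≤ ε * (x / Real.log x ^ l) ∧
      ∀ r : ℕ, 1 ≤ r → (r : ℝ) ≤ Real.log x ^ B →
        |((({q : ℕ | x ≤ q ∧ (q : ℝ) < 2 * x ∧ (q * r + 1).Prime ∧
            ∀ j, (⌊α j * s j * q⌋₊ + 1).Prime}).ncard : ℕ) : ℝ) -
          (r : ℝ) / Nat.totient r * (x / Real.log x ^ (l + 1))| ≤
          ε * ((r : ℝ) / Nat.totient r * (x / Real.log x ^ (l + 1))) := by
  have h1 : ∀ᵐ α : Fin l → ℝ, ∀ B k : ℕ, (∀ j, 0 < α j) → ∀ (K : ℕ) (ε : ℝ), 0 < ε → ∀ᶠ x : ℝ in atTop,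
      ∀ m : ℕ, (m : ℝ) ≤ Real.log x ^ B → ∀ r : Fin k → ℕ, (∀ i, 1 ≤ r i ∧ (r i : ℝ) ≤ Real.log x ^ B) →
      ∀ s : Fin l → ℕ, (∀ j, 1 ≤ s j ∧ (s j : ℝ) ≤ Real.log x ^ B) →
      |((({q : ℕ | x ≤ q ∧ (q : ℝ) < 2 * x ∧ ((q ∈ A m ∧ ∀ i, (q * r i + 1).Prime) ∧
          ∀ j, (⌊α j * s j * q⌋₊ + 1).Prime)}).ncard : ℕ) : ℝ) -
        (({q : ℕ | x ≤ q ∧ (q : ℝ) < 2 * x ∧ (q ∈ A m ∧ ∀ i, (q * r i + 1).Prime)}).ncard : ℕ) / Real.log x ^ l| ≤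
        ε * ((({q : ℕ | x ≤ q ∧ (q : ℝ) < 2 * x ∧ (q ∈ A m ∧ ∀ i, (q * r i + 1).Prime)}).ncard : ℕ) /
          Real.log x ^ l) + x / Real.log x ^ K := by
    rw [ae_all_iff]
    intro B
    rw [ae_all_iff]
    intro k
    exact famA l B k A
  have h2 : ∀ᵐ α : Fin l → ℝ, ∀ B k : ℕ, (∀ j, 0 < α j) → ∀ (K : ℕ) (ε : ℝ), 0 < ε → ∀ᶠ x : ℝ in atTop,
      ∀ m : ℕ, (m : ℝ) ≤ Real.log x ^ B → ∀ r : Fin k → ℕ, (∀ i, 1 ≤ r i ∧ (r i : ℝ) ≤ Real.log x ^ B) →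
      ∀ s : Fin l → ℕ, (∀ j, 1 ≤ s j ∧ (s j : ℝ) ≤ Real.log x ^ B) →
      |((({q : ℕ | x ≤ q ∧ (q : ℝ) < 2 * x ∧ ((q ∈ (Set.univ : Set ℕ) ∧ ∀ i, (q * r i + 1).Prime) ∧
          ∀ j, (⌊α j * s j * q⌋₊ + 1).Prime)}).ncard : ℕ) : ℝ) -
        (({q : ℕ | x ≤ q ∧ (q : ℝ) < 2 * x ∧ (q ∈ (Set.univ : Set ℕ) ∧ ∀ i, (q * r i + 1).Prime)}).ncard : ℕ) /
          Real.log x ^ l| ≤
        ε * ((({q : ℕ | x ≤ q ∧ (q : ℝ) < 2 * x ∧ (q ∈ (Set.univ : Set ℕ) ∧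
          ∀ i, (q * r i + 1).Prime)}).ncard : ℕ) / Real.log x ^ l) + x / Real.log x ^ K := by
    rw [ae_all_iff]
    intro B
    rw [ae_all_iff]
    intro k
    exact famA l B k (fun _ => Set.univ)
  filter_upwards [h1, h2] with α H1 H2 hpos B K ε hε
  have g1 : ∀ᶠ x : ℝ in atTop, ∀ k ∈ Finset.range (B + 1),
      ∀ m : ℕ, (m : ℝ) ≤ Real.log x ^ B → ∀ r : Fin k → ℕ, (∀ i, 1 ≤ r i ∧ (r i : ℝ) ≤ Real.log x ^ B) →
      ∀ s : Fin l → ℕ, (∀ j, 1 ≤ s j ∧ (s j : ℝ) ≤ Real.log x ^ B) →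
      |((({q : ℕ | x ≤ q ∧ (q : ℝ) < 2 * x ∧ ((q ∈ A m ∧ ∀ i, (q * r i + 1).Prime) ∧
          ∀ j, (⌊α j * s j * q⌋₊ + 1).Prime)}).ncard : ℕ) : ℝ) -
        (({q : ℕ | x ≤ q ∧ (q : ℝ) < 2 * x ∧ (q ∈ A m ∧ ∀ i, (q * r i + 1).Prime)}).ncard : ℕ) / Real.log x ^ l| ≤
        ε * ((({q : ℕ | x ≤ q ∧ (q : ℝ) < 2 * x ∧ (q ∈ A m ∧ ∀ i, (q * r i + 1).Prime)}).ncard : ℕ) /
          Real.log x ^ l) + x / Real.log x ^ K :=
    (Filter.eventually_all_finset _).2 fun k _ => H1 B k hpos K ε hε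
  obtain ⟨δ, hδ⟩ : ∃ δ, δ = min ε 1 := ⟨_, rfl⟩
  have hδ0 : 0 < δ := by
    rw [hδ]
    positivity
  have hδε : δ ≤ ε := by
    rw [hδ]
    exact min_le_left _ _
  have hδ1 : δ ≤ 1 := by
    rw [hδ]
    exact min_le_right _ _
  have g2 := H2 B 0 hpos (l + 1) (δ / 4) (by positivity)
  have g3 := H2 B 1 hpos (l + 2) (δ / 4) (by positivity)
  have g4 := one_form B (show 0 < δ / 4 by positivity)
  refine Filter.eventually_atTop.1 ?_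
  filter_upwards [g1, g2, g3, g4, ev_logx (8 / δ), ev_logx 1, eventually_ge_atTop (8 / δ), eventually_ge_atTop 1] with
    x g1 g2 g3 g4 g5 g6 g7 g8 s hs
  have hL0 : 0 < Real.log x := by linarith
  have hx0 : 0 < x := by linarith
  have hB0 : (0 : ℝ) ≤ Real.log x ^ B := by positivity
  refine ⟨fun m k hm hk r hr => g1 k (Finset.mem_range.2 (Nat.lt_succ_of_le hk)) m hm r hr s hs, ?_, ?_⟩
  · have a1 := g2 0 (by simpa using hB0) (fun i => 1) (fun i => i.elim0) s hs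
    have a2 := all_count g8 (fun q : ℕ => q ∈ (Set.univ : Set ℕ) ∧ ∀ i : Fin 0, (q * 1 + 1).Prime)
      (fun q => ⟨Set.mem_univ q, fun i => i.elim0⟩)
    have a3 := fin0 g7 g8 g5 hL0 hδ0 a1 a2
    have e : {q : ℕ | x ≤ q ∧ (q : ℝ) < 2 * x ∧ ∀ j, (⌊α j * s j * q⌋₊ + 1).Prime} =
        {q : ℕ | x ≤ q ∧ (q : ℝ) < 2 * x ∧ ((q ∈ (Set.univ : Set ℕ) ∧ ∀ i : Fin 0, (q * 1 + 1).Prime) ∧
          ∀ j, (⌊α j * s j * q⌋₊ + 1).Prime)} := by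
      ext q
      constructor
      · rintro ⟨b1, b2, b3⟩
        exact ⟨b1, b2, ⟨Set.mem_univ q, fun i => i.elim0⟩, b3⟩
      · rintro ⟨b1, b2, b3, b4⟩
        exact ⟨b1, b2, b4⟩
    rw [e]
    refine a3.trans (mul_le_mul_of_nonneg_right hδε ?_)
    positivity
  · intro r hr hrB
    have a1 := g3 0 (by simpa using hB0) (fun i => r) (fun i => ⟨hr, hrB⟩) s hs
    have a2 := g4 r hr hrB
    have hφ0 : 0 < (Nat.totient r : ℝ) := by exact_mod_cast Nat.totient_pos.2 (by omega)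
    have hφ1 : (Nat.totient r : ℝ) ≤ r := by exact_mod_cast Nat.totient_le r
    have hT : 1 ≤ (r : ℝ) / Nat.totient r := by
      rw [le_div_iff₀ hφ0, one_mul]
      exact hφ1
    have e1 : {q : ℕ | x ≤ q ∧ (q : ℝ) < 2 * x ∧ (q ∈ (Set.univ : Set ℕ) ∧ ∀ i : Fin 1, (q * r + 1).Prime)} =
        {q : ℕ | x ≤ q ∧ (q : ℝ) < 2 * x ∧ (q * r + 1).Prime} := by
      ext q
      constructor
      · rintro ⟨b1, b2, b3, b4⟩
        exact ⟨b1, b2, b4 0⟩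
      · rintro ⟨b1, b2, b3⟩
        exact ⟨b1, b2, Set.mem_univ q, fun _ => b3⟩
    have e2 : {q : ℕ | x ≤ q ∧ (q : ℝ) < 2 * x ∧ ((q ∈ (Set.univ : Set ℕ) ∧ ∀ i : Fin 1, (q * r + 1).Prime) ∧
          ∀ j, (⌊α j * s j * q⌋₊ + 1).Prime)} =
        {q : ℕ | x ≤ q ∧ (q : ℝ) < 2 * x ∧ (q * r + 1).Prime ∧ ∀ j, (⌊α j * s j * q⌋₊ + 1).Prime} := by
      ext q
      constructor
      · rintro ⟨b1, b2, ⟨b3, b4⟩, b5⟩
        exact ⟨b1, b2, b4 0, b5⟩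
      · rintro ⟨b1, b2, b3, b4⟩
        exact ⟨b1, b2, ⟨Set.mem_univ q, fun _ => b3⟩, b4⟩
    rw [e1, e2] at a1
    have a3 := fin1 hx0 (le_trans (div_le_div_of_nonneg_right (by norm_num) hδ0.le) g5) hL0 hδ0 hδ1 hT a1 a2
    refine a3.trans (mul_le_mul_of_nonneg_right hδε ?_)
    positivity

end Pool.Agent.D0H76.UG
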